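import Pool.Agent.H440Q.Props5
import Pool.Agent.H516R2.EQP5.GI

/-! Quantified oracle algorithms are good functions of the content of a block (adapted from
`Pool.Agent.H516R2.EQP5.GI`) -/

set_option autoImplicit false

namespace Pool.Agent.H440Q

open Pool.Agent.NPC Pool.Agent.H620R2.Gauge Finset H568R2 Pool.Agent.H676 Pool.Agent.H516R2.EQP
  Pool.Agent.H516R2.EQP2 Pool.Agent.H516R2.EQP3 Pool.Agent.H516R2.EQP4 Pool.Agent.H516R2.EQP5

theorem GIn : St_GIn := by
  intro a b M k p q
  refine ⟨M.p.comp (q + Polynomial.C k * (Polynomial.C 2 * p + 1)) +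
    (q + Polynomial.C k * (Polynomial.C 2 * p + 1)) + Polynomial.C 4 * Polynomial.X +
    Polynomial.C (k + 3), ?_⟩
  intro m hm y l hy hl
  obtain ⟨n, hn⟩ : ∃ n : ℕ, n = 2 ^ m ^ b := ⟨_, rfl⟩
  rw [← hn] at hm hy hl ⊢
  set P := M.p.comp (q + Polynomial.C k * (Polynomial.C 2 * p + 1)) +
    (q + Polynomial.C k * (Polynomial.C 2 * p + 1)) + Polynomial.C 4 * Polynomial.X +
    Polynomial.C (k + 3) with hP
  have hPe : P.eval n = M.p.eval (q.eval n + k * (2 * p.eval n + 1)) +
      (q.eval n + k * (2 * p.eval n + 1)) + 4 * n + (k + 3) := by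
    rw [hP]
    simp [Polynomial.eval_comp]
  have hT : y.length + k * (2 * l + 1) ≤ q.eval n + k * (2 * p.eval n + 1) :=
    Nat.add_le_add hy (Nat.mul_le_mul_left _ (by omega))
  have hMT := eval_mono M.p hT
  have ht : y.length + k * (2 * l + 1) + 2 + 4 * m ^ a + k + 1 ≤ P.eval n := by
    rw [hPe]
    omega
  have htM : M.p.eval (y.length + k * (2 * l + 1)) ≤ P.eval n := by
    rw [hPe]
    omega
  refine ⟨by omega, fun B b' c c0 => ⟨?_, ?_⟩⟩
  · intro z ρ₀
    have hv : ∀ i : Cube (m ^ a), DTr 1 (fun p : U (m ^ a) ⊕ U (m ^ a) → Bool =>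
        (Sum.elim (ov ρ₀ p) z i ^^ c0 i)) := by
      intro i
      rcases i with j | j
      · simp only [Sum.elim_inl]
        cases hρ : ρ₀ j with
        | none =>
          refine Or.inr ⟨j, fun b => ⟨b ^^ c0 (Sum.inl j), fun v => ?_⟩⟩
          simp [ov, hρ]
        | some b =>
          refine DTr.const ⟨b ^^ c0 (Sum.inl j), fun v => ?_⟩
          simp [ov, hρ]
      · exact DTr.const ⟨z j ^^ c0 (Sum.inr j), fun v => rfl⟩
    exact GI_main a b m M k y l _ ht htM B b' c
      (fun p => sgm (fun i => Sum.elim (ov ρ₀ p) z i ^^ c0 i)) (fun i => by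
        rcases i with (j | j) | j
        · exact hv (Sum.inl (Sum.inl j))
        · exact hv (Sum.inl (Sum.inr (sw j)))
        · exact hv (Sum.inr j))
  · intro p
    have hv : ∀ i : Cube (m ^ a), DTr 1 (fun z : W (m ^ a) → Bool =>
        (Sum.elim p z i ^^ c0 i)) := by
      intro i
      rcases i with j | j
      · exact DTr.const ⟨p j ^^ c0 (Sum.inl j), fun v => rfl⟩
      · refine Or.inr ⟨j, fun b => ⟨b ^^ c0 (Sum.inr j), fun v => ?_⟩⟩
        simp
    exact GI_main a b m M k y l _ ht htM B b' c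
      (fun z => sgm (fun i => Sum.elim p z i ^^ c0 i)) (fun i => by
        rcases i with (j | j) | j
        · exact hv (Sum.inl (Sum.inl j))
        · exact hv (Sum.inl (Sum.inr (sw j)))
        · exact hv (Sum.inr j))

end Pool.Agent.H440Q
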