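import Pool.Agent.H440Q.Props5
import Pool.Agent.H516R2.EQP.H1
import Pool.Agent.H516R2.EQP2.H2p

/-!
# Hardness with explicit parameters
(adapted from `Pool.Agent.H516R2.EQP5.H2t`)
-/

set_option autoImplicit false

namespace Pool.Agent.H440Q

open Pool.Agent.NPC Pool.Agent.H620R2.Gauge Finset H568R2 Pool.Agent.H676 Pool.Agent.H516R2.EQP
  Pool.Agent.H516R2.EQP2 Pool.Agent.H516R2.EQP3 Pool.Agent.H516R2.EQP4 Pool.Agent.H516R2.EQP5

theorem H2n_yes {κ : ℕ} (h20 : 20 ≤ κ) (a : U κ ⊕ U κ → Bool) (z : W κ → Bool)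
    (h : |(FF a : ℝ) / 8 ^ κ - 2 / 5| ≤ 11 / 2 ^ κ) : YesO (Sum.elim a z : Cube κ → Bool) := by
  unfold YesO
  rw [H1_sum_elim_inl]
  have h1 := (abs_le.1 h).1
  have h2 : (2 : ℝ) ^ 20 ≤ 2 ^ κ := pow_le_pow_right₀ (by norm_num) h20
  have h3 : (11 : ℝ) / 2 ^ κ ≤ 1 / 20 := by
    rw [div_le_div_iff₀ (by positivity) (by norm_num)]
    have : (2 : ℝ) ^ 20 = 1048576 := by norm_num
    linarith
  have h4 : (1 : ℝ) / 3 ≤ (FF a : ℝ) / 8 ^ κ := by linarith
  rw [div_le_div_iff₀ (by norm_num) (by positivity)] at h4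
  have h5 : ((8 : ℤ) ^ κ : ℝ) ≤ 3 * (FF a : ℝ) := by
    push_cast
    linarith
  exact_mod_cast h5

theorem H2n_flip {κ : ℕ} (a : Cube κ → Bool) (h : YesO a) : NoO (H2_e a) := by
  unfold YesO at h
  unfold NoO
  have hsz : ∀ b : Bool, Pool.Agent.H516R2.EQP.sz (b ^^ true) = - Pool.Agent.H516R2.EQP.sz b := by
    intro b; cases b <;> simp [Pool.Agent.H516R2.EQP.sz]
  have h1 : FF (fun i => (H2_e a) (Sum.inl i)) = - FF (fun i => a (Sum.inl i)) := by
    show FF (fun i => (a (Sum.inl i)) ^^ (H2_c (Sum.inl i : Cube κ))) = _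
    unfold FF
    rw [← Finset.sum_neg_distrib]
    refine Finset.sum_congr rfl fun u _ => ?_
    rw [← Finset.sum_neg_distrib]
    refine Finset.sum_congr rfl fun v _ => ?_
    simp only [H2_c, hsz, Bool.xor_false]
    ring
  rw [h1]
  linarith

theorem H2n_aux (hl : St_L2p) (hcm : St_CM) (κ t J : ℕ) (h20 : 20 ≤ κ)
    (ht : 1 ≤ t) (hp4 : t ≤ 4 ^ κ)
    (hA1 : 1200 * (((24 * (t : ℝ)) ^ J) ^ 2 * ((t : ℝ) ^ 2 + 1)) / 2 ^ κ + 210000 / 16 ^ κ ≤
      1 / 100)
    (h : (Cube κ → Bool) → Bool) (hgood : Good κ t J h) (hyes : ∀ a, YesO a → h a = true) :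
    4 / 5 ≤ av (br h) := by
  obtain ⟨hgood1, hgood2⟩ := hgood
  have ht0 : (0 : ℝ) < t := by exact_mod_cast ht
  have ht1 : (1 : ℝ) ≤ t := by exact_mod_cast ht
  set q : ℝ := 1 / (24 * (t : ℝ)) with hq
  have hq0 : 0 < q := by positivity
  have hq3 : q ≤ 1 / 3 := by
    rw [hq]
    exact one_div_le_one_div_of_le (by norm_num) (by linarith)
  have hQ0 : 0 < q ^ J := pow_pos hq0 J
  have hQ1 : q ^ J ≤ 1 := pow_le_one₀ hq0.le (by linarith)
  have hε0 : (0 : ℝ) ≤ (1 / 16) ^ κ := by positivity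
  set g : (U κ ⊕ U κ → Bool) → ℝ := fun a =>
    av (fun z : W κ → Bool => br h (Sum.elim a z)) with hg
  -- the average of `g`
  have havg : av (br h) = av g := by
    rw [H1_av_sum (I := U κ ⊕ U κ) (J := W κ)]
  have hg01 : ∀ a, 0 ≤ g a ∧ g a ≤ 1 := fun a =>
    ⟨H1_av_nonneg fun z => (H1_br01 _ _).1, av_le fun z => (H1_br01 _ _).2⟩
  have hcU : Fintype.card (U κ) = 4 ^ κ := B_cardU κ
  -- (1)
  have step1 : ∀ a, |(FF a : ℝ) / 8 ^ κ - 2 / 5| ≤ 11 / 2 ^ κ → 1 - 0 ≤ g a := by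
    intro a ha
    have hz1 : ∀ z : W κ → Bool, h (Sum.elim a z) = true := fun z => hyes _ (H2n_yes h20 a z ha)
    have hg1 : g a = av (fun _ : W κ → Bool => (1 : ℝ)) := by
      refine congrArg av (funext fun z => ?_)
      show br h (Sum.elim a z) = 1
      unfold br
      rw [hz1 z]
      rfl
    rw [hg1]
    unfold av
    rw [Finset.sum_const, Finset.card_univ, Fintype.card_fun, Fintype.card_bool]
    simp
  -- (2)
  set ℓ : ℝ := ((24 * (t : ℝ)) ^ J) ^ 2 * ((t : ℝ) ^ 2 + 1) with hℓ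
  have step2 : ∀ ρ, L12 (rr g ρ) ≤ ℓ := by
    intro ρ
    have h1 : rr g ρ = fun x => av (fun z : W κ → Bool =>
        rr (br (fun a' => h (Sum.elim a' z))) ρ x) := by
      funext x
      refine congrArg av (funext fun z => ?_)
      rfl
    rw [h1]
    refine (H1_L12_av _).trans (av_le fun z => ?_)
    have h2 := hl (U κ) t (q ^ J) ((1 / 16) ^ κ) (fun a' => h (Sum.elim a' z)) hQ0 hQ1 hε0
      (hgood1 z) ρ
    refine h2.trans ?_
    rw [hcU]
    have h3 : 1 / q ^ J = (24 * (t : ℝ)) ^ J := by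
      rw [hq, one_div_pow, one_div_one_div]
    rw [h3]
    have h4 : ((1 : ℝ) / 16) ^ κ * (((4 ^ κ : ℕ) : ℝ)) ^ 2 ≤ 1 := by
      have h5 : (((4 ^ κ : ℕ) : ℝ)) ^ 2 = 16 ^ κ := by
        push_cast
        rw [← pow_mul, mul_comm κ 2, pow_mul]
        norm_num
      rw [h5, ← mul_pow]
      norm_num
    rw [hℓ]
    gcongr
  -- (3)
  have h3 := hcm κ g ℓ 0 h20 hg01 (by positivity) step2 (by norm_num) (by norm_num) step1
  rw [havg]
  linarith


theorem H2n (hl : St_L2p) (hcm : St_CM) : St_H2n := by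
  intro κ t J h20 ht hp4 hA1 _ h hg
  have h0 := H2n_aux hl hcm κ t J h20 ht hp4 hA1
  by_contra hcon
  rw [not_or] at hcon
  obtain ⟨hy, hn⟩ := hcon
  have hy' : ∀ a, YesO a → h a = true := by
    intro a ha
    by_contra h'
    exact hy ⟨a, ha, by simpa using h'⟩
  have hn' : ∀ a, NoO a → h a = false := by
    intro a ha
    by_contra h'
    exact hn ⟨a, ha, by simpa using h'⟩
  have g0 : Good κ t J h := by
    have := hg (fun _ => false)
    simpa using this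
  have e1 := h0 h g0 hy'
  have g1 : Good κ t J (fun a => !h (H2_e a)) := H2p_not (hg H2_c)
  have e2 := h0 (fun a => !h (H2_e a)) g1 (fun a ha => by
    have h3 : h (H2_e a) = false := hn' _ (H2n_flip a ha)
    rw [h3]; rfl)
  have e3 : av (br (fun a => !h (H2_e a))) = 1 - av (br h) := by
    have e4 : br (fun a => !h (H2_e a)) = fun a => 1 - br h (H2_e a) := by
      funext a
      change (if (!h (H2_e a)) = true then (1 : ℝ) else 0) =
        1 - if h (H2_e a) = true then (1 : ℝ) else 0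
      cases hh : h (H2_e a) <;> simp
    rw [e4]
    exact H2_av _ _
  rw [e3] at e2
  linarith

end Pool.Agent.H440Q
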