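import Pool.Agent.H440Q.Props5
import Pool.Agent.H516R2.EQP5.IG
import Pool.Agent.H516R2.EQP3.PropsZ
import Pool.Agent.H516R2.EQP3.FX
import Pool.Agent.H591R3.PHG.LangSig

/-!
# Every oracle can be changed at the strings of the blocks
-/

set_option autoImplicit false

namespace Pool.Agent.H440Q

open Pool.Agent.NPC Pool.Agent.H620R2.Gauge Finset H568R2 Pool.Agent.H676 Pool.Agent.H516R2.EQP
  Pool.Agent.H516R2.EQP2 Pool.Agent.H516R2.EQP3 Pool.Agent.H516R2.EQP4 Pool.Agent.H516R2.EQP5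

theorem IGn (hp : St_PIn) (hq : St_QIn) (hs : St_ISn) (hdg : St_DG) (hll : St_LL) (hdq : St_DQ) :
    St_IGn := by
  intro a b hb hba R
  obtain ⟨p1, p2, p3, p4, p6⟩ := hp a b hb
  obtain ⟨Cq, hCq, hCq'⟩ := hq a b hb
  obtain ⟨-, hl2⟩ := hll
  have g1 : ∃ B : Oracle, (∀ z, z ∉ TI a b → B z = R z) ∧
      ∀ m, alN a b m B = 0 ∨ alN a b m B = 1 / 2 := by
    obtain ⟨B, h1, h2⟩ := p6 R
    exact ⟨B, h1, fun m => Or.inl (h2 m)⟩
  have g2 : ∀ B : Oracle, (∀ N : ℕ, ∃ B' : Oracle, ((∀ z, z ∉ TI a b → B' z = R z) ∧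
      ∀ m, alN a b m B' = 0 ∨ alN a b m B' = 1 / 2) ∧
      ∀ z : List Bool, z.length ≤ N → B' z = B z) → ((∀ z, z ∉ TI a b → B z = R z) ∧
      ∀ m, alN a b m B = 0 ∨ alN a b m B = 1 / 2) := by
    intro B h
    refine ⟨fun z hz => ?_, fun m => ?_⟩
    · obtain ⟨B', ⟨h1, -⟩, he⟩ := h z.length
      rw [← he z le_rfl, h1 z hz]
    · obtain ⟨B', ⟨-, h2⟩, he⟩ := h (2 ^ m ^ b + 5 + 3 * m ^ a)
      have e : alN a b m B' = alN a b m B := p3 m B' B fun z hz => he z (le_of_eq hz.2)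
      rw [← e]
      exact h2 m
  have g3 : ∀ (t : Alg × Polynomial ℕ × ℕ) (B : Oracle) (N : ℕ),
      ((∀ z, z ∉ TI a b → B z = R z) ∧ ∀ m, alN a b m B = 0 ∨ alN a b m B = 1 / 2) →
      ∃ (B' : Oracle) (N' : ℕ), ((∀ z, z ∉ TI a b → B' z = R z) ∧
        ∀ m, alN a b m B' = 0 ∨ alN a b m B' = 1 / 2) ∧
      (∀ z : List Bool, z.length ≤ N → B' z = B z) ∧
      ∀ B'' : Oracle, ((∀ z, z ∉ TI a b → B'' z = R z) ∧
        ∀ m, alN a b m B'' = 0 ∨ alN a b m B'' = 1 / 2) →
        (∀ z : List Bool, z.length ≤ N' → B'' z = B' z) →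
        ∃ y : List Bool, ¬ (QO t.1 (t.2.1.eval y.length) t.2.2 true y B'' = true ↔
          y ∈ LIn a b B'') := by
    rintro ⟨M, p, k⟩ B N ⟨hB1, hB2⟩
    obtain ⟨m, x, y, hx, hN, hbad⟩ := hs a b hb hba M p k B N
    obtain ⟨N2, hN2⟩ := hl2 M (p.eval y.length) k true y
    refine ⟨pmN a b m x B, max (y.length + 5 + 3 * y.length ^ a) N2, ⟨fun z hz => ?_, fun m' => ?_⟩,
      fun z hz => p2 m z x B (hN z hz), fun B'' _ h'' => ⟨y, ?_⟩⟩
    · rw [p2 m z x B (fun h => hz ⟨m, h⟩)]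
      exact hB1 z hz
    · by_cases hm : m' = m
      · subst hm
        rcases hx with hx | hx
        · exact Or.inr ((p4 m' x B).1 hx)
        · exact Or.inl ((p4 m' x B).2 hx)
      · have e : alN a b m' (pmN a b m x B) = alN a b m' B := by
          apply p3
          intro z hz
          exact p2 m z x B (fun h => hm (p1 m' m z hz h))
        rw [e]
        exact hB2 m'
    · have e2 := hN2 B'' (pmN a b m x B) fun z hz => h'' z (hz.trans (le_max_right _ _))
      have e1 : y ∈ LIn a b B'' ↔ y ∈ LIn a b (pmN a b m x B) := by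
        have e3 : ∀ m' : ℕ, y.length = 2 ^ m' ^ b →
            alN a b m' B'' = alN a b m' (pmN a b m x B) := by
          intro m' hm'
          apply p3
          intro z hz
          apply h''
          refine le_trans ?_ (le_max_left _ _)
          rw [hz.2]
          have h4 : m' ≤ y.length := by rw [hm']; exact IG_le m' b hb
          have h5 : m' ^ a ≤ y.length ^ a := Nat.pow_le_pow_left h4 a
          omega
        constructor
        · rintro ⟨m', h1, h2⟩
          exact ⟨m', h1, by rw [← e3 m' h1]; exact h2⟩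
        · rintro ⟨m', h1, h2⟩
          exact ⟨m', h1, by rw [e3 m' h1]; exact h2⟩
      simp only
      rw [e1, e2]
      exact hbad
  have hcnt : Countable (Alg × Polynomial ℕ × ℕ) := by
    have h2 : Countable (Polynomial ℕ) := by
      have : Function.Injective (fun p : Polynomial ℕ => (p.toFinsupp.coeff : ℕ →₀ ℕ)) := by
        intro p q h
        ext n
        exact DFunLike.congr_fun h n
      exact this.countable
    infer_instance
  obtain ⟨B, hB, hbad⟩ := hdg (Alg × Polynomial ℕ × ℕ)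
    (fun B => (∀ z, z ∉ TI a b → B z = R z) ∧ ∀ m, alN a b m B = 0 ∨ alN a b m B = 1 / 2)
    (fun B t => ∃ y : List Bool, ¬ (QO t.1 (t.2.1.eval y.length) t.2.2 true y B = true ↔
          y ∈ LIn a b B)) g1 g2 g3
  refine ⟨B, hB.1, LIn a b B, ?_, ?_⟩
  · refine ⟨Cq, hCq, fun x => ⟨(hCq' x).1, fun hxL => ?_, fun hxL => ?_⟩⟩
    · obtain ⟨m, h1, h2⟩ := hxL
      exact ((hCq' x).2.1 m h1 B).1 h2
    · by_cases hm : ∃ m : ℕ, x.length = 2 ^ m ^ b
      · obtain ⟨m, hm⟩ := hm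
        exact ((hCq' x).2.1 m hm B).2 ((hB.2 m).resolve_right (fun h => hxL ⟨m, hm, h⟩))
      · push Not at hm
        rw [(hCq' x).2.2 hm B]
        norm_num
  · rintro ⟨V, p, k, ⟨M, hM⟩, hL⟩
    obtain ⟨x, hx⟩ := hbad (M, p, k)
    apply hx
    have h1 : Quant (p.eval x.length) V k true x ↔ QO M (p.eval x.length) k true x B = true :=
      hdq M B V (List Bool) (fun y' A' => decide (M.out A' y' = some [true])) B
        (p.eval x.length) k true x hM (fun _ _ => rfl)
    exact h1.symm.trans (hL x).symm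

end Pool.Agent.H440Q
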