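import Pool.Agent.H440Q.Props5
import Pool.Agent.H516R2.EQP5.IH

/-!
# The gauge theorem for `EQP` outside `PH`
-/

set_option autoImplicit false

namespace Pool.Agent.H440Q

open Pool.Agent.NPC Pool.Agent.H620R2.Gauge Finset H568R2 Pool.Agent.H676 Pool.Agent.H516R2.EQP
  Pool.Agent.H516R2.EQP2 Pool.Agent.H516R2.EQP3 Pool.Agent.H516R2.EQP4 Pool.Agent.H516R2.EQP5

theorem IHn (hg : St_IGn) (hs : St_SI) (hn : St_NNg) : St_IHn := by
  intro f ε hε hf
  obtain ⟨a, b, hb, hab, hT⟩ := hs ε hε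
  refine hn f (TI a b) _ ∅ ?_ IH_ranO_empty ?_
  · filter_upwards [hT, hf] with N h1 h2
    exact h1.trans h2
  · intro R _
    obtain ⟨A, h1, h2⟩ := hg a b hb hab R
    exact ⟨A, h2, h1⟩

end Pool.Agent.H440Q
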