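import Pool.Agent.H440Q.Props5

/-! IS: one step of the construction (helper152) -/

set_option autoImplicit false

namespace Pool.Agent.H440Q

open Pool.Agent.NPC Pool.Agent.H620R2.Gauge Finset H568R2 Pool.Agent.H676 Pool.Agent.H516R2.EQP
  Pool.Agent.H516R2.EQP2 Pool.Agent.H516R2.EQP3 Pool.Agent.H516R2.EQP4 Pool.Agent.H516R2.EQP5

theorem ISn (hp : St_PIn) (hh : St_H2n) (ha : St_AT) (hg : St_GIn) : St_ISn := by
  intro a b hb hba M p k B N
  obtain ⟨P, hP⟩ := hg a b M k p Polynomial.X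
  obtain ⟨m₀, hm₀⟩ := ha a b k P hb hba
  obtain ⟨-, -, -, hal, -⟩ := hp a b hb
  set m : ℕ := max m₀ (N + 1) with hm
  have hm1 : m₀ ≤ m := le_max_left _ _
  have hm2 : N + 1 ≤ m := le_max_right _ _
  have hm3 : m ≤ m ^ b := Nat.le_self_pow (by omega) _
  have hm4 : m ^ b < 2 ^ m ^ b := Nat.lt_two_pow_self
  obtain ⟨h20, hle, ht4, hnum⟩ := hm₀ m hm1
  set y : List Bool := List.replicate (2 ^ m ^ b) true with hy
  have hylen : y.length = 2 ^ m ^ b := by rw [hy, List.length_replicate]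
  obtain ⟨h1t, hgood⟩ := hP m hle y (p.eval (2 ^ m ^ b)) (by
    rw [hylen, Polynomial.eval_X]) le_rfl
  obtain ⟨n1, n2⟩ := hnum _ rfl h1t
  have hG : Goods (m ^ a) (P.eval (2 ^ m ^ b)) k
      (fun x => QO M (p.eval (2 ^ m ^ b)) k true y (pmN a b m x B)) := by
    have h := hgood B true false
    simp only [Bool.xor_false] at h
    exact h
  have hInI : ∀ z : List Bool, z.length ≤ N → ¬ InI a b m z := by
    intro z hz hI
    have h1 := hI.2
    omega
  rcases hh (m ^ a) (P.eval (2 ^ m ^ b)) k h20 h1t ht4 n1 n2 _ hG with ⟨x, hx, hv⟩ | ⟨x, hx, hv⟩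
  · refine ⟨m, x, y, Or.inl hx, hInI, ?_⟩
    rw [hylen]
    intro hiff
    have h1 : y ∈ LIn a b (pmN a b m x B) := ⟨m, hylen, (hal m x B).1 hx⟩
    have h2 := hiff.2 h1
    beta_reduce at hv
    rw [h2] at hv
    exact absurd hv (by decide)
  · refine ⟨m, x, y, Or.inr hx, hInI, ?_⟩
    rw [hylen]
    intro hiff
    obtain ⟨m', h1, h2⟩ := hiff.1 hv
    rw [hylen] at h1
    have h3 : m ^ b = m' ^ b := Nat.pow_right_injective le_rfl h1
    have h4 : m = m' := Nat.pow_left_injective (by omega : b ≠ 0) h3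
    rw [← h4, (hal m x B).2 hx] at h2
    norm_num at h2

end Pool.Agent.H440Q
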