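import Pool.Agent.H440Q.Base

/-! # The value of the instances -/

set_option autoImplicit false

namespace Pool.Agent.H440Q

open Pool.Agent.NPC Pool.Agent.H620R2.Gauge Finset H568R2 Pool.Agent.H676 Pool.Agent.H516R2.EQP

theorem OV_sw_sw {κ : ℕ} (u : U κ) : sw (sw u) = u := rfl

/-- exchanging the bits is a permutation -/
def OV_swE (κ : ℕ) : U κ ≃ U κ := ⟨sw, sw, OV_sw_sw, OV_sw_sw⟩

theorem OV_bent_sw {κ : ℕ} (u : U κ) : bent (sw u) = bent u := by
  unfold bent sw
  congr 1
  funext k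
  simp only
  rw [Bool.and_comm]

theorem OV_Hz_comm {κ : ℕ} (u v : U κ) : Hz u v = Hz v u := by
  unfold Hz
  refine Finset.prod_congr rfl fun k _ => ?_
  rw [Bool.and_comm (u k).1, Bool.and_comm (u k).2]

theorem OV_local (κ : ℕ) (A A' : Oracle) (h : ∀ w : List Bool, w.length = 4 + 3 * κ → A w = A' w) :
    valO A κ = valO A' κ := by
  unfold valO
  congr 1
  refine Finset.sum_congr rfl (fun u _ => ?_)
  refine Finset.sum_congr rfl (fun v _ => ?_)
  rw [h (false :: List.ofFn (ix u)) (by simp; omega), h (true :: List.ofFn (ix v)) (by simp; omega)]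

theorem OV_base (κ : ℕ) : valO base κ = -1 := by
  have hb : ∀ (r : Bool) (u : U κ), base (r :: List.ofFn (ix u)) = (par1 u ^^ (bent u ^^ r)) := by
    intro r u
    unfold base ix
    have hlen : ((r :: List.ofFn (AL_mkf (κ := κ) ((true, false, false), (fun _ => false), u))).length
        - 4) / 3 = κ := by
      rw [List.length_cons, List.length_ofFn]
      omega
    rw [hlen, AL_uOf]
    have h1 : (r :: List.ofFn (AL_mkf (κ := κ)
      ((true, false, false), (fun _ => false), u))).getD 0 false = r := rfl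
    have h2 : (r :: List.ofFn (AL_mkf (κ := κ)
      ((true, false, false), (fun _ => false), u))).getD 1 false = true := by
      have := congrArg Prod.fst (AL_cOf (κ := κ) ((true, false, false), (fun _ => false), u) r)
      exact this
    rw [h1, h2, Bool.and_true]
  unfold valO
  simp_rw [hb]
  have h1 : ∀ u v : U κ, (sg (par1 u ^^ (bent u ^^ false)) * sg (par1 u)) * (Hz u (sw v) : ℝ) *
      (sg (par1 v ^^ (bent v ^^ true)) * sg (par1 v)) =
      -(sg (bent v) * ((Hz (sw v) u : ℝ) * sg (bent u))) := by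
    intro u v
    rw [OV_Hz_comm u (sw v), AL_sg_xor, AL_sg_xor, AL_sg_xor, AL_sg_xor]
    have e1 := AL_sg_sq (par1 u)
    have e2 := AL_sg_sq (par1 v)
    have e3 : sg true = -1 := rfl
    have e4 : sg false = 1 := rfl
    rw [e3, e4]
    linear_combination (-(sg (bent u) * (Hz (sw v) u : ℝ) * sg (bent v)) * sg (par1 v) ^ 2) * e1 -
      (sg (bent u) * (Hz (sw v) u : ℝ) * sg (bent v)) * e2
  simp_rw [h1]
  rw [Finset.sum_comm]
  have h2 : ∀ v : U κ, ∑ u : U κ, -(sg (bent v) * ((Hz (sw v) u : ℝ) * sg (bent u))) = -(2 ^ κ) := by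
    intro v
    rw [Finset.sum_neg_distrib, ← Finset.mul_sum, AL_bent, OV_bent_sw]
    have := AL_sg_sq (bent v)
    linear_combination (-(2 : ℝ) ^ κ) * this
  rw [Finset.sum_congr rfl fun v _ => h2 v, Finset.sum_const, Finset.card_univ, nsmul_eq_mul,
    AL_cardU]
  have h3 : (4 : ℝ) ^ κ * 2 ^ κ = 8 ^ κ := by
    rw [← mul_pow]
    norm_num
  have h8 : (8 : ℝ) ^ κ ≠ 0 := by positivity
  rw [mul_neg, h3, neg_div, div_self h8]

theorem OV_emb (κ : ℕ) (B : Oracle) (a : Cube κ → Bool) : valO (emb κ B (sgm a)) κ =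
    (FF (fun i => a (Sum.inl i)) : ℝ) / 8 ^ κ := by
  have hb : ∀ (r : Bool) (u : U κ), emb κ B (sgm a) (r :: List.ofFn (ix u)) =
      (par1 u ^^ (if r then a (Sum.inl (Sum.inr (sw u))) else a (Sum.inl (Sum.inl u)))) := by
    intro r u
    unfold emb ix
    have hlen : (r :: List.ofFn (AL_mkf (κ := κ)
        ((true, false, false), (fun _ => false), u))).length = 4 + 3 * κ := by
      rw [List.length_cons, List.length_ofFn]
      omega
    rw [if_pos hlen, AL_cOf, AL_lOf, AL_uOf]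
    have h1 : (r :: List.ofFn (AL_mkf (κ := κ)
      ((true, false, false), (fun _ => false), u))).getD 0 false = r := rfl
    rw [h1]
    unfold cell
    rw [if_neg (by simp), if_neg (by simp)]
    rfl
  have h1 : ∀ u v : U κ, (sg (emb κ B (sgm a) (false :: List.ofFn (ix u))) * sg (par1 u)) *
      (Hz u (sw v) : ℝ) * (sg (emb κ B (sgm a) (true :: List.ofFn (ix v))) * sg (par1 v)) =
      (Pool.Agent.H516R2.EQP.sz (a (Sum.inl (Sum.inl u))) : ℝ) * (Hz u (sw v) : ℝ) *
        (Pool.Agent.H516R2.EQP.sz (a (Sum.inl (Sum.inr (sw v)))) : ℝ) := by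
    intro u v
    rw [hb, hb, if_neg (by simp), if_pos rfl, AL_sg_xor, AL_sg_xor, ← AL_sg_sz, ← AL_sg_sz]
    have e1 := AL_sg_sq (par1 u)
    have e2 := AL_sg_sq (par1 v)
    linear_combination ((sg (a (Sum.inl (Sum.inl u))) * (Hz u (sw v) : ℝ) *
      sg (a (Sum.inl (Sum.inr (sw v))))) * sg (par1 v) ^ 2) * e1 +
      (sg (a (Sum.inl (Sum.inl u))) * (Hz u (sw v) : ℝ) * sg (a (Sum.inl (Sum.inr (sw v))))) * e2
  unfold valO
  simp_rw [h1]
  congr 1
  unfold FF
  push_cast
  refine Finset.sum_congr rfl fun u _ => ?_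
  exact Equiv.sum_comp (OV_swE κ) (fun v => (Pool.Agent.H516R2.EQP.sz (a (Sum.inl (Sum.inl u))) : ℝ) * (Hz u v : ℝ) *
    (Pool.Agent.H516R2.EQP.sz (a (Sum.inl (Sum.inr v))) : ℝ))

theorem OV : St_OV := ⟨OV_local, OV_base, OV_emb⟩

end Pool.Agent.H440Q
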