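import Pool.Agent.H440Q.Props5
import Pool.Agent.H440Q.OV
import Pool.Agent.H516R2.EQP5.PI

/-! Facts about the blocks (adapted from `Pool.Agent.H516R2.EQP5.PI`) -/

set_option autoImplicit false

namespace Pool.Agent.H440Q

open Pool.Agent.NPC Pool.Agent.H620R2.Gauge Finset H568R2 Pool.Agent.H676 Pool.Agent.H516R2.EQP
  Pool.Agent.H516R2.EQP2 Pool.Agent.H516R2.EQP3 Pool.Agent.H516R2.EQP4 Pool.Agent.H516R2.EQP5

theorem dec_yes {v : ℝ} (h : 1 / 3 ≤ v) : dec v = 1 / 2 := if_pos h

theorem dec_no {v : ℝ} (h : v ≤ -(1 / 3)) : dec v = 0 := by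
  unfold dec
  rw [if_neg (by linarith), if_pos h]

theorem dec_half {v : ℝ} (h : dec v = 1 / 2) : 1 / 3 ≤ v := by
  unfold dec at h
  split_ifs at h with h1 h2
  · exact h1
  · norm_num at h
  · norm_num at h

theorem dec_zero {v : ℝ} (h : dec v = 0) : v ≤ -(1 / 3) := by
  unfold dec at h
  split_ifs at h with h1 h2
  · norm_num at h
  · exact h2
  · norm_num at h

theorem YesO_div {κ : ℕ} (x : Cube κ → Bool) (h : YesO x) :
    1 / 3 ≤ (FF (fun i => x (Sum.inl i)) : ℝ) / 8 ^ κ := by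
  unfold YesO at h
  rw [div_le_div_iff₀ (by norm_num) (by positivity)]
  have h5 : ((8 : ℤ) ^ κ : ℝ) ≤ 3 * (FF (fun i => x (Sum.inl i)) : ℝ) := by exact_mod_cast h
  push_cast at h5
  linarith

theorem NoO_div {κ : ℕ} (x : Cube κ → Bool) (h : NoO x) :
    (FF (fun i => x (Sum.inl i)) : ℝ) / 8 ^ κ ≤ -(1 / 3) := by
  unfold NoO at h
  rw [div_le_iff₀ (by positivity)]
  have h5 : 3 * (FF (fun i => x (Sum.inl i)) : ℝ) ≤ -((8 : ℤ) ^ κ : ℝ) := by exact_mod_cast h
  push_cast at h5
  linarith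

theorem PIn_al {a b : ℕ} (m : ℕ) (A A' : Oracle)
    (h : ∀ z, InI a b m z → A z = A' z) : alN a b m A = alN a b m A' := by
  unfold alN
  congr 1
  refine OV_local _ _ _ fun w hw => ?_
  unfold tlI
  exact h _ (PI_mem m w hw)

theorem PIn_val {a b : ℕ} (m : ℕ) (x : Cube (m ^ a) → Bool) (B : Oracle) :
    valO (tlI b m (pmN a b m x B)) (m ^ a) = (FF (fun i => x (Sum.inl i)) : ℝ) / 8 ^ (m ^ a) := by
  rw [← OV_emb (m ^ a) B x]
  refine OV_local _ _ _ fun w hw => ?_
  unfold tlI
  show pm a b m (sgm x) B (List.replicate (2 ^ m ^ b) false ++ true :: w) =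
    emb (m ^ a) B (sgm x) w
  unfold pm
  rw [if_pos (PI_mem m w hw), PI_drop]

open Classical in
theorem PIn : St_PIn := by
  intro a b hb
  refine ⟨PI_inj hb, fun m z x B h => PI_off m z (sgm x) B h, PIn_al, fun m x B =>
    ⟨fun h => ?_, fun h => ?_⟩, ?_⟩
  · unfold alN
    rw [PIn_val]
    exact dec_yes (YesO_div x h)
  · unfold alN
    rw [PIn_val]
    exact dec_no (NoO_div x h)
  · intro R
    refine ⟨fun z => if h : ∃ m, InI a b m z then base (z.drop (2 ^ h.choose ^ b + 1)) else R z,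
      fun z hz => ?_, fun m => ?_⟩
    · have h : ¬ ∃ m, InI a b m z := hz
      exact dif_neg h
    · unfold alN
      apply dec_no
      have e : valO (tlI b m (fun z => if h : ∃ m, InI a b m z then
          base (z.drop (2 ^ h.choose ^ b + 1)) else R z)) (m ^ a) = valO base (m ^ a) := by
        refine OV_local _ _ _ fun w hw => ?_
        unfold tlI
        have h1 : ∃ m', InI a b m' (List.replicate (2 ^ m ^ b) false ++ true :: w) :=
          ⟨m, PI_mem m w hw⟩
        have h2 : h1.choose = m := PI_inj hb _ _ _ h1.choose_spec (PI_mem m w hw)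
        show (if h : ∃ m', InI a b m' (List.replicate (2 ^ m ^ b) false ++ true :: w) then
          base ((List.replicate (2 ^ m ^ b) false ++ true :: w).drop (2 ^ h.choose ^ b + 1))
          else R (List.replicate (2 ^ m ^ b) false ++ true :: w)) = base w
        rw [dif_pos h1, h2, PI_drop]
      rw [e, OV_base]
      norm_num

end Pool.Agent.H440Q
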