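import Pool.Agent.H440Q.QIn
import Pool.Agent.H440Q.PIn
import Pool.Agent.H440Q.GIn
import Pool.Agent.H440Q.H2n
import Pool.Agent.H440Q.ISn
import Pool.Agent.H440Q.IGn
import Pool.Agent.H440Q.IHn
import Pool.Agent.H516R2.EQP5.All

/-! # One quantum question, many oracles: the assembly -/

set_option autoImplicit false

namespace Pool.Agent.H440Q

open Pool.Agent.H516R2.EQP Pool.Agent.H516R2.EQP2 Pool.Agent.H516R2.EQP3 Pool.Agent.H516R2.EQP4
  Pool.Agent.H516R2.EQP5

theorem all_ISn : St_ISn := ISn PIn (H2n (L2p L1) all_CM) AT GIn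

theorem all_IGn : St_IGn := IGn PIn QIn all_ISn DG LL DQ

theorem all_IHn : St_IHn := IHn all_IGn SI NNg

end Pool.Agent.H440Q
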