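import Pool.Agent.H516R2.EQP.AL

/-!
# One quantum question: objects

(Oracles, `P`, `PH` relative to an oracle and quantum circuits with oracle gates are defined in
`Pool.Agent.H620R2.Gauge.Defs` and `Pool.Agent.H620R2.GaugeQ.Defs`; `queries`, the number of the
oracle gates of a circuit, is defined in `Pool.Agent.H516R2.EQP.Defs`.)
-/

set_option autoImplicit false

namespace Pool.Agent.H440Q

open Pool.Agent.NPC Pool.Agent.H620R2.Gauge Finset H568R2 Pool.Agent.H676 Pool.Agent.H516R2.EQP

/-- The language `L` is in bounded-error quantum polynomial time relative to `A`, with at most `k`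
questions to the oracle: there are quantum circuits `C x`, computable from `x` in polynomial time,
with at most `k` oracle gates each, which accept with probability at least `2/3` if `x` is in `L`
and with probability at most `1/3` if it is not. -/
def IsBQPq (k : ℕ) (A : Oracle) (L : Set (List Bool)) : Prop :=
  ∃ C : List Bool → List Unit × List Gate, PolyTime (fun x => bits (C x)) ∧
    ∀ x, queries (C x) ≤ k ∧ (x ∈ L → 2 / 3 ≤ accProb A (C x)) ∧ (x ∉ L → accProb A (C x) ≤ 1 / 3)

/-- exchange the two bits of every pair -/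
def sw {κ : ℕ} (u : U κ) : U κ := fun k => ((u k).2, (u k).1)

/-- the index with control part `(1, 0, 0)`, outer part `0` and middle part `u` -/
def ix {κ : ℕ} (u : U κ) : Fin (3 + 3 * κ) → Bool :=
  AL_mkf ((true, false, false), (fun _ => false), u)

/-- the number computed by the circuits with one question -/
noncomputable def valO (A : Oracle) (κ : ℕ) : ℝ :=
  (∑ u : U κ, ∑ v : U κ, (sg (A (false :: List.ofFn (ix u))) * sg (par1 u)) * (Hz u (sw v) : ℝ) *
    (sg (A (true :: List.ofFn (ix v))) * sg (par1 v))) / 8 ^ κ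

/-- the gates which flip the qubit `t` if the number of the pairs `(1, 1)` in the middle part of
the index qubits is odd -/
def czG (κ t : ℕ) : List Gate :=
  (List.range κ).map (fun k => Sum.inr (false, [6 + κ + 2 * k, 6 + κ + 2 * k + 1], t))

/-- the circuits with one question: `P` is the list of the qubits containing the prefix -/
def circO (P : List ℕ) (κ : ℕ) : List Unit × List Gate :=
  (List.replicate (6 + 3 * κ) (),
    nt 1 :: nt 2 :: had 2 :: nt 3 :: (midQ κ).map nt ++ (midQ κ).map had ++ had 1 ::
      Sum.inr (true, P ++ 1 :: idxQ κ, 2) :: czG κ 2 ++ (midQ κ).map had ++ had 1 ::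
      Sum.inr (false, [1], 0) :: czG κ 0)

/-- the acceptance probability of the circuits with one question -/
def St_OC : Prop := ∀ (κ : ℕ) (P : List ℕ) (A : Oracle), (∀ j ∈ P, j = 3 ∨ j = 6 + 3 * κ) →
  accProb A (circO P κ) =
    (1 + valO (fun z => A (P.map (fun j => decide (j = 3)) ++ z)) κ) / 2

/-- exchange the bits of every pair in the indices of the second group of variables -/
def sgm {κ : ℕ} (a : Cube κ → Bool) : Cube κ → Bool := fun i =>
  match i with
  | Sum.inl (Sum.inr u) => a (Sum.inl (Sum.inr (sw u)))
  | i => a i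

/-- the value of the instances -/
def St_OV : Prop :=
  (∀ (κ : ℕ) (A A' : Oracle), (∀ w : List Bool, w.length = 4 + 3 * κ → A w = A' w) →
    valO A κ = valO A' κ) ∧
  (∀ κ : ℕ, valO base κ = -1) ∧
  (∀ (κ : ℕ) (B : Oracle) (a : Cube κ → Bool), valO (emb κ B (sgm a)) κ =
    (FF (fun i => a (Sum.inl i)) : ℝ) / 8 ^ κ)

/-- decoding of the value: `1/2` means yes, `0` means no, `1` means undefined -/
noncomputable def dec (v : ℝ) : ℝ := if 1 / 3 ≤ v then 1 / 2 else if v ≤ -(1 / 3) then 0 else 1

/-- `a` is a yes-instance -/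
def YesO {κ : ℕ} (a : Cube κ → Bool) : Prop := (8 : ℤ) ^ κ ≤ 3 * FF (fun i => a (Sum.inl i))

/-- `a` is a no-instance -/
def NoO {κ : ℕ} (a : Cube κ → Bool) : Prop := 3 * FF (fun i => a (Sum.inl i)) ≤ -(8 : ℤ) ^ κ

end Pool.Agent.H440Q
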