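import Pool.Agent.H440Q.Base
import Pool.Agent.H516R2.EQP.B
import Pool.Agent.H516R2.EQP.QL
import Pool.Agent.H516R2.EQP.QG
import Pool.Agent.H516R2.EQP.QF

/-! # The acceptance probability of the circuits with one question -/

set_option autoImplicit false

namespace Pool.Agent.H440Q

open Pool.Agent.NPC Pool.Agent.H620R2.Gauge Finset H568R2 Pool.Agent.H676 Pool.Agent.H516R2.EQP

/-- the state with amplitudes `φ c i` for the control qubit `1` in state `c` and the index `i`, qubit
`2` in the state `(|0> - |1>)/√2` and the output qubit equal to `o c i` -/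
noncomputable def lf {κ : ℕ} (o : Bool → (Fin (3 + 3 * κ) → Bool) → Bool)
    (φ : Bool → (Fin (3 + 3 * κ) → Bool) → ℝ) : (Fin (6 + 3 * κ) → Bool) → ℝ :=
  fun s => if rd s 0 = o (rd s 1) (qgI s) then
    sg (rd s 2) / Real.sqrt 2 * φ (rd s 1) (qgI s) else 0

/-- no output -/
def oz {κ : ℕ} : Bool → (Fin (3 + 3 * κ) → Bool) → Bool := fun _ _ => false

theorem OC_I_update {κ : ℕ} (s : Fin (6 + 3 * κ) → Bool) (k : Fin (3 + 3 * κ))
    (hk : k.val + 3 < 6 + 3 * κ) (b : Bool) :
    qgI (Function.update s ⟨k.val + 3, hk⟩ b) = Function.update (qgI s) k b := by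
  funext l
  unfold qgI
  by_cases hl : l = k
  · subst hl
    rw [ql_rd_self, Function.update_self]
  · rw [ql_rd_ne s _ hk b _ (fun h => hl (Fin.ext (by omega))), Function.update_of_ne hl]

theorem OC_had {κ : ℕ} (A : Oracle) (φ : Bool → (Fin (3 + 3 * κ) → Bool) → ℝ)
    (k : Fin (3 + 3 * κ)) :
    gateAct A (had (k.val + 3)) (lf oz φ) = lf oz (fun c => qlH1 k (φ c)) := by
  have hk : k.val + 3 < 6 + 3 * κ := by have := k.isLt; omega
  have hu : ∀ (s : Fin (6 + 3 * κ) → Bool) (b : Bool),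
      lf oz φ (Function.update s ⟨k.val + 3, hk⟩ b) = if rd s 0 = false then
        sg (rd s 2) / Real.sqrt 2 * φ (rd s 1) (Function.update (qgI s) k b) else 0 := by
    intro s b
    unfold lf oz
    rw [ql_rd_ne s _ hk b 0 (by omega), ql_rd_ne s _ hk b 1 (by omega),
      ql_rd_ne s _ hk b 2 (by omega), OC_I_update]
  funext s
  show (if h : k.val + 3 < 6 + 3 * κ then
        (lf oz φ (Function.update s ⟨k.val + 3, h⟩ false) +
          (if s ⟨k.val + 3, h⟩ then -1 else 1) * lf oz φ (Function.update s ⟨k.val + 3, h⟩ true)) /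
          Real.sqrt 2
      else lf oz φ s) = _
  rw [dif_pos hk, hu, hu]
  have e : s ⟨k.val + 3, hk⟩ = qgI s k := by unfold qgI rd; rw [dif_pos hk]
  rw [e]
  unfold lf oz qlH1
  beta_reduce
  by_cases h0 : rd s 0 = false
  · rw [if_pos h0, if_pos h0, if_pos h0]
    cases hq : qgI s k
    · simp only [Bool.false_eq_true, if_false]
      ring
    · simp only [if_true]
      ring
  · rw [if_neg h0, if_neg h0, if_neg h0]
    simp

theorem OC_list {κ : ℕ} (A : Oracle) (φ : Bool → (Fin (3 + 3 * κ) → Bool) → ℝ) (c : ℕ) :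
    ∀ j : ℕ, c + j ≤ 3 + 3 * κ →
      circAct A (((List.range j).map (· + (c + 3))).map had) (lf oz φ) =
        lf oz (fun b => HH (fun k => decide (c ≤ k.val ∧ k.val < c + j)) (φ b)) := by
  intro j
  induction j with
  | zero =>
    intro _
    have e : (fun k : Fin (3 + 3 * κ) => decide (c ≤ k.val ∧ k.val < c + 0)) = fun _ => false := by
      funext k
      rw [decide_eq_false_iff_not]
      omega
    simp only [e, ql_zero]
    rfl
  | succ j ih =>
    intro hj
    rw [List.range_succ, List.map_append, List.map_append, ql_append, ih (by omega)]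
    have hlt : c + j < 3 + 3 * κ := by omega
    have e1 : j + (c + 3) = c + j + 3 := by ring
    show gateAct A (had (j + (c + 3))) _ = _
    rw [e1]
    have h1 := OC_had A (fun b => HH (fun k => decide (c ≤ k.val ∧ k.val < c + j)) (φ b))
      ⟨c + j, hlt⟩
    have h1' : gateAct A (had (c + j + 3))
        (lf oz (fun b => HH (fun k => decide (c ≤ k.val ∧ k.val < c + j)) (φ b)))
      = lf oz (fun b => qlH1 ⟨c + j, hlt⟩
          (HH (fun k => decide (c ≤ k.val ∧ k.val < c + j)) (φ b))) := h1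
    rw [h1']
    congr 1
    funext b
    rw [ql_step _ _ (by rw [decide_eq_false_iff_not]; simp)]
    congr 1
    funext k
    by_cases hk : k = ⟨c + j, hlt⟩
    · subst hk
      rw [Function.update_self, eq_comm, decide_eq_true_iff]
      constructor
      · show c ≤ c + j
        omega
      · show c + j < c + (j + 1)
        omega
    · rw [Function.update_of_ne hk]
      have hne : k.val ≠ c + j := fun h => hk (Fin.ext h)
      apply decide_eq_decide.2
      omega

/-- the middle part -/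
def pm1 (κ : ℕ) : Fin (3 + 3 * κ) → Bool := fun k => decide (3 + κ ≤ k.val)

theorem OC_mid {κ : ℕ} (A : Oracle) (φ : Bool → (Fin (3 + 3 * κ) → Bool) → ℝ) :
    circAct A ((midQ κ).map had) (lf oz φ) = lf oz (fun b => HH (pm1 κ) (φ b)) := by
  have h := OC_list A φ (3 + κ) (2 * κ) (by omega)
  have e : (fun k : Fin (3 + 3 * κ) => decide (3 + κ ≤ k.val ∧ k.val < 3 + κ + 2 * κ)) =
      pm1 κ := by
    funext k
    apply decide_eq_decide.2
    have := k.isLt
    omega
  rw [e] at h
  have e2 : (midQ κ) = (List.range (2 * κ)).map (· + (3 + κ + 3)) := by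
    unfold midQ
    apply List.map_congr_left
    intro a _
    omega
  rw [e2]
  exact h

/-- Hadamard gate on the control qubit -/
theorem OC_had1 {κ : ℕ} (A : Oracle) (φ : Bool → (Fin (3 + 3 * κ) → Bool) → ℝ) :
    gateAct A (had 1) (lf oz φ) =
      lf oz (fun c i => (φ false i + sg c * φ true i) / Real.sqrt 2) := by
  have h1 : 1 < 6 + 3 * κ := by omega
  have hu : ∀ (s : Fin (6 + 3 * κ) → Bool) (b : Bool),
      lf oz φ (Function.update s ⟨1, h1⟩ b) = if rd s 0 = false then
        sg (rd s 2) / Real.sqrt 2 * φ b (qgI s) else 0 := by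
    intro s b
    unfold lf oz
    rw [ql_rd_ne s _ h1 b 0 (by omega), ql_rd_self, ql_rd_ne s _ h1 b 2 (by omega),
      qg_I2 s 1 h1 (by omega)]
  funext s
  show (if h : 1 < 6 + 3 * κ then
        (lf oz φ (Function.update s ⟨1, h⟩ false) +
          (if s ⟨1, h⟩ then -1 else 1) * lf oz φ (Function.update s ⟨1, h⟩ true)) /
          Real.sqrt 2
      else lf oz φ s) = _
  rw [dif_pos h1, hu, hu, ← qg_rd s 1 h1]
  unfold lf oz
  by_cases h0 : rd s 0 = false
  · rw [if_pos h0, if_pos h0, if_pos h0]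
    beta_reduce
    have e : sg (rd s 1) = if rd s 1 = true then (-1 : ℝ) else 1 := rfl
    rw [e]
    ring
  · rw [if_neg h0, if_neg h0, if_neg h0]
    simp

/-- the state of the library in the new notation -/
theorem OC_lift {κ : ℕ} (φ : (Fin (3 + 3 * κ) → Bool) → ℝ) :
    lift (κ := κ) false φ = lf oz (fun c i => if c then φ i else 0) := by
  funext s
  rw [qg_lift]
  unfold lf oz
  by_cases h0 : rd s 0 = false <;> by_cases h1 : rd s 1 = true <;> simp [h0, h1]

/-- flips of the qubit `2` -/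
theorem OC_flip2 {κ : ℕ} (φ : Bool → (Fin (3 + 3 * κ) → Bool) → ℝ)
    (c : (Fin (6 + 3 * κ) → Bool) → Bool) (C : Bool → (Fin (3 + 3 * κ) → Bool) → Bool)
    (hC : ∀ s, φ (rd s 1) (qgI s) ≠ 0 → c (Function.update s ⟨2, by omega⟩ false) =
      C (rd s 1) (qgI s)) :
    (fun s => lf oz φ (flipIf c 2 s)) = lf oz (fun b i => sg (C b i) * φ b i) := by
  funext s
  have h2 : 2 < 6 + 3 * κ := by omega
  unfold flipIf
  rw [dif_pos h2]
  unfold lf oz
  rw [ql_rd_ne s 2 h2 _ 0 (by omega), ql_rd_ne s 2 h2 _ 1 (by omega),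
    ql_rd_self, qg_I2 s 2 h2 (by omega), ← qg_rd s 2 h2]
  by_cases h : rd s 0 = false
  · rw [if_pos h, if_pos h]
    by_cases hφ : φ (rd s 1) (qgI s) = 0
    · simp [hφ]
    · rw [hC s hφ, qg_sg]
      ring
  · rw [if_neg h, if_neg h]

/-- the question -/
theorem OC_orc {κ : ℕ} (A : Oracle) (P : List ℕ) (hP : ∀ j ∈ P, j = 3 ∨ j = 6 + 3 * κ)
    (φ : Bool → (Fin (3 + 3 * κ) → Bool) → ℝ) (hφ : ∀ c i, i ⟨0, by omega⟩ = false → φ c i = 0) :
    gateAct A (Sum.inr (true, P ++ 1 :: idxQ κ, 2)) (lf oz φ) =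
      lf oz (fun c i => sg (A (P.map (fun j => decide (j = 3)) ++ c :: List.ofFn i)) * φ c i) := by
  have h2 : 2 < 6 + 3 * κ := by omega
  refine OC_flip2 φ (fun s => A ((P ++ 1 :: idxQ κ).map (rd s)))
    (fun c i => A (P.map (fun j => decide (j = 3)) ++ c :: List.ofFn i)) ?_
  intro s hs
  have h3 : rd s 3 = true := by
    by_contra hcon
    apply hs
    apply hφ
    show rd s (0 + 3) = false
    simpa using hcon
  rw [List.map_append, List.map_cons, qg_map, qg_I2 s 2 h2 (by omega), ql_rd_ne s 2 h2 _ 1 (by omega)]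
  congr 2
  refine List.map_congr_left fun j hj => ?_
  rcases hP j hj with rfl | rfl
  · rw [ql_rd_ne s 2 h2 _ 3 (by omega), h3]
    rfl
  · have h6 : ¬ (6 + 3 * κ = 3) := by omega
    rw [decide_eq_false h6]
    unfold rd
    rw [dif_neg (by omega)]

theorem OC_rdI {κ : ℕ} (s : Fin (6 + 3 * κ) → Bool) (k : ℕ) : rd s (k + 3) = rd (qgI s) k := by
  unfold rd
  by_cases h : k < 3 + 3 * κ
  · rw [dif_pos (by omega), dif_pos h]
    unfold qgI
    rw [qg_rd]
  · rw [dif_neg (by omega), dif_neg h]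

/-- the sign of the first `j` pairs -/
def prt (κ j : ℕ) (i : Fin (3 + 3 * κ) → Bool) : Bool :=
  ((List.range j).map (fun k => rd i (3 + κ + 2 * k) && rd i (3 + κ + 2 * k + 1))).foldr xor false

theorem OC_foldr (l : List Bool) (b : Bool) : (l ++ [b]).foldr xor false = (l.foldr xor false ^^ b) := by
  induction l with
  | nil => simp
  | cons a l ih => simp only [List.cons_append, List.foldr_cons, ih, Bool.xor_assoc]

theorem prt_succ (κ j : ℕ) (i : Fin (3 + 3 * κ) → Bool) :
    prt κ (j + 1) i = (prt κ j i ^^ (rd i (3 + κ + 2 * j) && rd i (3 + κ + 2 * j + 1))) := by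
  unfold prt
  rw [List.range_succ, List.map_append, List.map_singleton, OC_foldr]

theorem OC_cz2 {κ : ℕ} (A : Oracle) (φ : Bool → (Fin (3 + 3 * κ) → Bool) → ℝ) :
    ∀ j : ℕ, circAct A ((List.range j).map
      (fun k => (Sum.inr (false, [6 + κ + 2 * k, 6 + κ + 2 * k + 1], 2) : Gate))) (lf oz φ) =
        lf oz (fun c i => sg (prt κ j i) * φ c i) := by
  intro j
  induction j with
  | zero =>
    show lf oz φ = _
    congr 1
    funext c i
    have : prt κ 0 i = false := rfl
    rw [this]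
    simp [sg]
  | succ j ih =>
    rw [List.range_succ, List.map_append, ql_append, ih]
    have h2 : 2 < 6 + 3 * κ := by omega
    have h := OC_flip2 (fun c i => sg (prt κ j i) * φ c i)
      (fun s => [6 + κ + 2 * j, 6 + κ + 2 * j + 1].all (rd s))
      (fun _ i => rd i (3 + κ + 2 * j) && rd i (3 + κ + 2 * j + 1)) (by
        intro s _
        simp only [List.all_cons, List.all_nil, Bool.and_true]
        rw [ql_rd_ne s 2 h2 _ (6 + κ + 2 * j) (by omega),
          ql_rd_ne s 2 h2 _ (6 + κ + 2 * j + 1) (by omega)]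
        have e1 : 6 + κ + 2 * j = 3 + κ + 2 * j + 3 := by ring
        have e2 : 3 + κ + 2 * j + 3 + 1 = 3 + κ + 2 * j + 1 + 3 := by ring
        rw [e1, e2, OC_rdI, OC_rdI])
    refine Eq.trans h ?_
    congr 1
    funext c i
    rw [prt_succ, AL_sg_xor]
    ring

/-- flips of the qubit `0` -/
theorem OC_flip0 {κ : ℕ} (o : Bool → (Fin (3 + 3 * κ) → Bool) → Bool)
    (φ : Bool → (Fin (3 + 3 * κ) → Bool) → ℝ)
    (c : (Fin (6 + 3 * κ) → Bool) → Bool) (C : Bool → (Fin (3 + 3 * κ) → Bool) → Bool)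
    (hC : ∀ s, c (Function.update s ⟨0, by omega⟩ false) = C (rd s 1) (qgI s)) :
    (fun s => lf o φ (flipIf c 0 s)) = lf (fun b i => (o b i ^^ C b i)) φ := by
  funext s
  have h0 : 0 < 6 + 3 * κ := by omega
  unfold flipIf
  rw [dif_pos h0, hC]
  unfold lf
  rw [ql_rd_self, ql_rd_ne s 0 h0 _ 1 (by omega), ql_rd_ne s 0 h0 _ 2 (by omega),
    qg_I2 s 0 h0 (by omega), ← qg_rd s 0 h0]
  have e : ((rd s 0 ^^ C (rd s 1) (qgI s)) = o (rd s 1) (qgI s)) ↔
      (rd s 0 = (o (rd s 1) (qgI s) ^^ C (rd s 1) (qgI s))) := by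
    cases rd s 0 <;> cases C (rd s 1) (qgI s) <;> cases o (rd s 1) (qgI s) <;> simp
  simp only [e]

theorem OC_cz0 {κ : ℕ} (A : Oracle) (o : Bool → (Fin (3 + 3 * κ) → Bool) → Bool)
    (φ : Bool → (Fin (3 + 3 * κ) → Bool) → ℝ) :
    ∀ j : ℕ, circAct A ((List.range j).map
      (fun k => (Sum.inr (false, [6 + κ + 2 * k, 6 + κ + 2 * k + 1], 0) : Gate))) (lf o φ) =
        lf (fun c i => (o c i ^^ prt κ j i)) φ := by
  intro j
  induction j with
  | zero =>
    show lf o φ = _
    congr 1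
    funext c i
    have : prt κ 0 i = false := rfl
    rw [this, Bool.xor_false]
  | succ j ih =>
    rw [List.range_succ, List.map_append, ql_append, ih]
    have h0 : 0 < 6 + 3 * κ := by omega
    have h := OC_flip0 (fun c i => (o c i ^^ prt κ j i)) φ
      (fun s => [6 + κ + 2 * j, 6 + κ + 2 * j + 1].all (rd s))
      (fun _ i => rd i (3 + κ + 2 * j) && rd i (3 + κ + 2 * j + 1)) (by
        intro s
        simp only [List.all_cons, List.all_nil, Bool.and_true]
        rw [ql_rd_ne s 0 h0 _ (6 + κ + 2 * j) (by omega),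
          ql_rd_ne s 0 h0 _ (6 + κ + 2 * j + 1) (by omega)]
        have e1 : 6 + κ + 2 * j = 3 + κ + 2 * j + 3 := by ring
        have e2 : 3 + κ + 2 * j + 3 + 1 = 3 + κ + 2 * j + 1 + 3 := by ring
        rw [e1, e2, OC_rdI, OC_rdI])
    refine Eq.trans h ?_
    congr 1
    funext c i
    rw [prt_succ, Bool.xor_assoc]

theorem OC_cnot {κ : ℕ} (A : Oracle) (φ : Bool → (Fin (3 + 3 * κ) → Bool) → ℝ) :
    gateAct A (Sum.inr (false, [1], 0)) (lf oz φ) = lf (fun c _ => c) φ := by
  have h0 : 0 < 6 + 3 * κ := by omega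
  have h := OC_flip0 (κ := κ) oz φ (fun s => [1].all (rd s)) (fun c _ => c) (by
        intro s
        simp only [List.all_cons, List.all_nil, Bool.and_true]
        rw [ql_rd_ne s 0 h0 _ 1 (by omega)])
  refine Eq.trans h ?_
  congr 1
  funext c i
  unfold oz
  rw [Bool.false_xor]

/-- the parts of a basis state -/
def spl {κ : ℕ} (s : Fin (6 + 3 * κ) → Bool) :
    Bool × Bool × Bool × (Fin (3 + 3 * κ) → Bool) := (rd s 0, rd s 1, rd s 2, qgI s)

theorem spl_bij {κ : ℕ} : Function.Bijective (spl (κ := κ)) := by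
  rw [Fintype.bijective_iff_injective_and_card]
  constructor
  · intro s t h
    unfold spl at h
    simp only [Prod.mk.injEq] at h
    obtain ⟨e0, e1, e2, e3⟩ := h
    funext i
    obtain ⟨i, hi⟩ := i
    rw [← qg_rd s i hi, ← qg_rd t i hi]
    rcases Nat.lt_or_ge i 3 with h3 | h3
    · interval_cases i
      · exact e0
      · exact e1
      · exact e2
    · obtain ⟨k, rfl⟩ : ∃ k, i = k + 3 := ⟨i - 3, by omega⟩
      rw [OC_rdI, OC_rdI, e3]
  · simp only [Fintype.card_prod, Fintype.card_bool, Fintype.card_fun, Fintype.card_fin]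
    rw [show 6 + 3 * κ = (3 + 3 * κ) + 3 by ring, pow_add]
    ring

theorem OC_acc {κ : ℕ} (o : Bool → (Fin (3 + 3 * κ) → Bool) → Bool)
    (φ : Bool → (Fin (3 + 3 * κ) → Bool) → ℝ) :
    (∑ s : Fin (6 + 3 * κ) → Bool, if rd s 0 then lf o φ s ^ 2 else 0) =
      ∑ c : Bool, ∑ i, if o c i then φ c i ^ 2 else 0 := by
  have e1 : ∀ s : Fin (6 + 3 * κ) → Bool, (if rd s 0 then lf o φ s ^ 2 else 0) =
      (fun q : Bool × Bool × Bool × (Fin (3 + 3 * κ) → Bool) =>
        if q.1 = true then (if q.1 = o q.2.1 q.2.2.2 then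
          (sg q.2.2.1 / Real.sqrt 2 * φ q.2.1 q.2.2.2) else 0) ^ 2 else 0) (spl s) := by
    intro s
    rfl
  rw [Finset.sum_congr rfl fun s _ => e1 s]
  refine (Equiv.sum_comp (Equiv.ofBijective _ (spl_bij (κ := κ)))
    (fun q : Bool × Bool × Bool × (Fin (3 + 3 * κ) → Bool) =>
        if q.1 = true then (if q.1 = o q.2.1 q.2.2.2 then
          (sg q.2.2.1 / Real.sqrt 2 * φ q.2.1 q.2.2.2) else 0) ^ 2 else 0)).trans ?_
  rw [Fintype.sum_prod_type, Fintype.sum_bool]
  simp only [if_true, Bool.false_eq_true, if_false, Finset.sum_const_zero, add_zero]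
  rw [Fintype.sum_prod_type]
  refine Finset.sum_congr rfl fun c _ => ?_
  rw [Fintype.sum_prod_type, Fintype.sum_bool, ← Finset.sum_add_distrib]
  refine Finset.sum_congr rfl fun i _ => ?_
  simp only
  have h2 : Real.sqrt 2 ^ 2 = 2 := Real.sq_sqrt (by norm_num)
  cases h : o c i
  · simp
  · simp only [if_true, mul_pow, div_pow, h2]
    have e3 : sg true ^ 2 = 1 := by simp [sg]
    have e4 : sg false ^ 2 = 1 := by simp [sg]
    rw [e3, e4]
    ring

end Pool.Agent.H440Q
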