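import Pool.Agent.H440Q.OC

/-! # The acceptance probability of the circuits with one question: the computation -/

set_option autoImplicit false

namespace Pool.Agent.H440Q

open Pool.Agent.NPC Pool.Agent.H620R2.Gauge Finset H568R2 Pool.Agent.H676 Pool.Agent.H516R2.EQP

/-! ### the kernel -/

noncomputable def K1 (b x y : Bool) : ℝ :=
  if b then sg (x && y) / Real.sqrt 2 else if x = y then (1 : ℝ) else 0

theorem OC_K {κ : ℕ} (p q : (Bool × Bool × Bool) × (Fin κ → Bool) × U κ) :
    QF_K (pm1 κ) (AL_mkf p) (AL_mkf q) =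
      (if p.1 = q.1 then 1 else 0) * (if p.2.1 = q.2.1 then 1 else 0) * Hd p.2.2 q.2.2 := by
  have h := AL_prod κ (fun k => K1 (decide (3 + κ ≤ k)) (AL_mk p k) (AL_mk q k))
  have e : QF_K (pm1 κ) (AL_mkf p) (AL_mkf q) =
      ∏ k : Fin (3 + 3 * κ), (fun k => K1 (decide (3 + κ ≤ k)) (AL_mk p k) (AL_mk q k)) k.val :=
    rfl
  rw [e, h]
  clear e h
  have hc : (fun k => K1 (decide (3 + κ ≤ k)) (AL_mk p k) (AL_mk q k)) 0 *
      (fun k => K1 (decide (3 + κ ≤ k)) (AL_mk p k) (AL_mk q k)) 1 *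
      (fun k => K1 (decide (3 + κ ≤ k)) (AL_mk p k) (AL_mk q k)) 2 =
        (if p.1 = q.1 then 1 else 0 : ℝ) := by
    have a0 : decide (3 + κ ≤ 0) = false := by simp
    have a1 : decide (3 + κ ≤ 1) = false := by simp; omega
    have a2 : decide (3 + κ ≤ 2) = false := by simp; omega
    simp only [a0, a1, a2, K1]
    have b0 : ∀ p : (Bool × Bool × Bool) × (Fin κ → Bool) × U κ, AL_mk p 0 = p.1.1 := fun p => rfl
    have b1 : ∀ p : (Bool × Bool × Bool) × (Fin κ → Bool) × U κ, AL_mk p 1 = p.1.2.1 :=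
      fun p => rfl
    have b2 : ∀ p : (Bool × Bool × Bool) × (Fin κ → Bool) × U κ, AL_mk p 2 = p.1.2.2 :=
      fun p => rfl
    simp only [b0, b1, b2]
    obtain ⟨⟨p1, p2, p3⟩, pl, pu⟩ := p
    obtain ⟨⟨q1, q2, q3⟩, ql, qu⟩ := q
    simp only
    cases p1 <;> cases p2 <;> cases p3 <;> cases q1 <;> cases q2 <;> cases q3 <;> simp
  have hl : (∏ k : Fin κ, (fun k => K1 (decide (3 + κ ≤ k)) (AL_mk p k) (AL_mk q k))
      (3 + k.val)) = (if p.2.1 = q.2.1 then 1 else 0 : ℝ) := by
    have : ∀ k : Fin κ, (fun k => K1 (decide (3 + κ ≤ k)) (AL_mk p k) (AL_mk q k)) (3 + k.val) =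
        if p.2.1 k = q.2.1 k then (1 : ℝ) else 0 := by
      intro k
      have a : decide (3 + κ ≤ 3 + k.val) = false := by
        have := k.isLt
        simp
      simp only [a, AL_mk_l, K1]
      simp
    rw [Finset.prod_congr rfl (fun k _ => this k), Finset.prod_ite_zero]
    simp [funext_iff]
  have hu : (∏ k : Fin κ, ((fun k => K1 (decide (3 + κ ≤ k)) (AL_mk p k) (AL_mk q k))
      (3 + κ + 2 * k.val) * (fun k => K1 (decide (3 + κ ≤ k)) (AL_mk p k) (AL_mk q k))
      (3 + κ + 2 * k.val + 1))) = Hd p.2.2 q.2.2 := by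
    unfold Hd Hz
    rw [show (2 : ℝ) ^ κ = ∏ _k : Fin κ, (2 : ℝ) by simp, Int.cast_prod, ← Finset.prod_div_distrib]
    refine Finset.prod_congr rfl (fun k _ => ?_)
    have a : decide (3 + κ ≤ 3 + κ + 2 * k.val) = true := by simp
    have a' : decide (3 + κ ≤ 3 + κ + 2 * k.val + 1) = true := by simp; omega
    simp only [a, a', AL_mk_u1, AL_mk_u2, K1]
    simp only [if_true, Int.cast_mul, ← AL_sg_sz]
    have h2 : Real.sqrt 2 * Real.sqrt 2 = 2 := QF_sqrt
    rw [div_mul_div_comm, h2]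
  rw [hc, hl, hu]

theorem OC_HHU {κ : ℕ} (φ : (Fin (3 + 3 * κ) → Bool) → ℝ) (c : Bool × Bool × Bool)
    (l : Fin κ → Bool) (u : U κ) :
    HH (pm1 κ) φ (AL_mkf (c, l, u)) = ∑ v : U κ, Hd u v * φ (AL_mkf (c, l, v)) := by
  rw [QF_HH_eq]
  have e1 : ∀ F : (Fin (3 + 3 * κ) → Bool) → ℝ, ∑ i, F i = ∑ p, F (AL_mkf (κ := κ) p) := by
    intro F
    exact (Equiv.sum_comp (Equiv.ofBijective _ AL_mkf_bij) F).symm
  rw [e1]
  simp_rw [OC_K]
  rw [Fintype.sum_prod_type, Finset.sum_eq_single c]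
  · rw [Fintype.sum_prod_type, Finset.sum_eq_single l]
    · refine Finset.sum_congr rfl (fun v _ => ?_)
      simp only [if_true, one_mul]
    · intro l' _ hl'
      apply Finset.sum_eq_zero
      intro v _
      simp [Ne.symm hl']
    · intro h; exact absurd (Finset.mem_univ _) h
  · intro c' _ hc'
    apply Finset.sum_eq_zero
    intro v _
    simp [Ne.symm hc']
  · intro h; exact absurd (Finset.mem_univ _) h

/-- the control part of the index -/
def cc : Bool × Bool × Bool := (true, false, false)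

/-- all ones -/
def one (κ : ℕ) : U κ := fun _ => (true, true)

theorem OC_Hz_one {κ : ℕ} (u : U κ) : (Hz u (one κ) : ℝ) = sg (par1 u) := by
  unfold Hz par1 one
  rw [AL_sg_bx, Int.cast_prod]
  refine Finset.prod_congr rfl fun k _ => ?_
  simp only [Bool.and_true, Int.cast_mul, ← AL_sg_sz, AL_sg_xor]

theorem OC_phi0 {κ : ℕ} (c : Bool × Bool × Bool) (l : Fin κ → Bool) (u : U κ) :
    HH (pm1 κ) (qgD (ix (one κ))) (AL_mkf (c, l, u)) =
      if c = cc ∧ l = (fun _ => false) then sg (par1 u) / 2 ^ κ else 0 := by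
  classical
  rw [OC_HHU]
  have h : ∀ v : U κ, qgD (ix (one κ)) (AL_mkf (c, l, v)) =
      if (c = cc ∧ l = (fun _ => false)) ∧ v = one κ then (1 : ℝ) else 0 := by
    intro v
    unfold qgD ix
    have : (AL_mkf (c, l, v) = AL_mkf ((true, false, false), (fun _ => false), one κ)) ↔
        ((c = cc ∧ l = (fun _ => false)) ∧ v = one κ) := by
      rw [AL_mkf_inj.eq_iff]
      simp only [Prod.mk.injEq, cc, and_assoc]
    simp only [this]
  simp_rw [h]
  by_cases hc : c = cc ∧ l = (fun _ => false)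
  · simp only [hc, true_and, and_self, if_true]
    rw [Finset.sum_eq_single (one κ)]
    · rw [if_pos rfl, mul_one]
      unfold Hd
      rw [OC_Hz_one]
    · intro v _ hv
      rw [if_neg hv, mul_zero]
    · intro h; exact absurd (Finset.mem_univ _) h
  · simp only [hc, false_and, if_false, mul_zero, Finset.sum_const_zero]

/-! ### the preparation -/

theorem OC_nts {κ : ℕ} (A : Oracle) : ∀ j : ℕ, j ≤ 2 * κ →
    circAct A (((List.range j).map (· + (6 + κ))).map nt)
      (lift false (qgD (fun k : Fin (3 + 3 * κ) => decide (k.val = 0)))) =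
      lift (κ := κ) false (qgD (fun k => decide (k.val = 0 ∨ (3 + κ ≤ k.val ∧ k.val < 3 + κ + j)))) := by
  intro j
  induction j with
  | zero =>
    intro _
    have e : (fun k : Fin (3 + 3 * κ) => decide (k.val = 0 ∨ (3 + κ ≤ k.val ∧ k.val < 3 + κ + 0))) =
        fun k => decide (k.val = 0) := by
      funext k
      apply decide_eq_decide.2
      omega
    rw [e]
    rfl
  | succ j ih =>
    intro hj
    rw [List.range_succ, List.map_append, List.map_append, ql_append, ih (by omega)]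
    have hlt : 3 + κ + j < 3 + 3 * κ := by omega
    have h1 := qg_nt A (fun k : Fin (3 + 3 * κ) =>
      decide (k.val = 0 ∨ (3 + κ ≤ k.val ∧ k.val < 3 + κ + j))) ⟨3 + κ + j, hlt⟩
    have e0 : ∀ ψ : (Fin (6 + 3 * κ) → Bool) → ℝ,
        circAct A ((([j] : List ℕ).map (· + (6 + κ))).map nt) ψ =
          gateAct A (nt (3 + κ + j + 3)) ψ := by
      intro ψ
      show gateAct A (nt (j + (6 + κ))) ψ = _
      rw [show j + (6 + κ) = 3 + κ + j + 3 by ring]
    rw [e0]
    refine Eq.trans h1 ?_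
    congr 2
    funext k
    by_cases hk : k = ⟨3 + κ + j, hlt⟩
    · subst hk
      rw [Function.update_self]
      simp only
      have e1 : decide (3 + κ + j = 0 ∨ 3 + κ ≤ 3 + κ + j ∧ 3 + κ + j < 3 + κ + j) = false := by
        rw [decide_eq_false_iff_not]
        omega
      have e2 : decide (3 + κ + j = 0 ∨ 3 + κ ≤ 3 + κ + j ∧ 3 + κ + j < 3 + κ + (j + 1)) =
          true := by
        rw [decide_eq_true_iff]
        omega
      rw [e1, e2]
      rfl
    · rw [Function.update_of_ne hk]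
      have hne : k.val ≠ 3 + κ + j := fun h => hk (Fin.ext h)
      apply decide_eq_decide.2
      omega

theorem OC_ix_one (κ : ℕ) : (fun k : Fin (3 + 3 * κ) => decide (k.val = 0 ∨
    (3 + κ ≤ k.val ∧ k.val < 3 + κ + 2 * κ))) = ix (one κ) := by
  funext k
  obtain ⟨k, hk⟩ := k
  show decide (k = 0 ∨ (3 + κ ≤ k ∧ k < 3 + κ + 2 * κ)) =
    AL_mk (κ := κ) ((true, false, false), (fun _ => false), one κ) k
  unfold AL_mk one
  by_cases h0 : k = 0
  · subst h0
    simp
  by_cases h1 : k = 1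
  · subst h1
    have : decide (1 = 0 ∨ (3 + κ ≤ 1 ∧ 1 < 3 + κ + 2 * κ)) = false := by
      rw [decide_eq_false_iff_not]
      omega
    rw [this]
    rfl
  by_cases h2 : k = 2
  · subst h2
    have : decide (2 = 0 ∨ (3 + κ ≤ 2 ∧ 2 < 3 + κ + 2 * κ)) = false := by
      rw [decide_eq_false_iff_not]
      omega
    rw [this]
    rfl
  rw [if_neg h0, if_neg h1, if_neg h2]
  by_cases h3 : k - 3 < κ
  · rw [dif_pos h3, decide_eq_false_iff_not]
    omega
  · have h4 : (k - 3 - κ) / 2 < κ := by omega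
    rw [dif_neg h3, dif_pos h4]
    simp only [ite_self, decide_eq_true_eq]
    omega

theorem OC_prep {κ : ℕ} (A : Oracle) :
    circAct A (nt 1 :: nt 2 :: had 2 :: nt 3 :: (midQ κ).map nt) (initSt (6 + 3 * κ)) =
      lift (κ := κ) false (qgD (ix (one κ))) := by
  show circAct A ((midQ κ).map nt) (gateAct A (nt 3)
    (gateAct A (had 2) (gateAct A (nt 2) (gateAct A (nt 1) (initSt (6 + 3 * κ)))))) = _
  rw [qg_three]
  have h0 : 0 < 3 + 3 * κ := by omega
  have h1 := qg_nt A (fun _ : Fin (3 + 3 * κ) => false) ⟨0, h0⟩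
  have h1' : gateAct A (nt 3) (lift (κ := κ) false (qgD (fun _ => false))) =
      lift false (qgD (Function.update (fun _ : Fin (3 + 3 * κ) => false) ⟨0, h0⟩ (!false))) := h1
  rw [h1']
  have e1 : Function.update (fun _ : Fin (3 + 3 * κ) => false) ⟨0, h0⟩ (!false) =
      fun k => decide (k.val = 0) := by
    funext k
    by_cases hk : k = ⟨0, h0⟩
    · subst hk
      rw [Function.update_self]
      rfl
    · rw [Function.update_of_ne hk, eq_comm, decide_eq_false_iff_not]
      exact fun h => hk (Fin.ext h)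
  rw [e1]
  have h2 := OC_nts (κ := κ) A (2 * κ) le_rfl
  rw [OC_ix_one] at h2
  exact h2

/-! ### the parity of the pairs -/

theorem OC_sg_prt {κ : ℕ} (i : Fin (3 + 3 * κ) → Bool) : ∀ j : ℕ, sg (prt κ j i) =
    ∏ k ∈ Finset.range j, sg (rd i (3 + κ + 2 * k) && rd i (3 + κ + 2 * k + 1)) := by
  intro j
  induction j with
  | zero =>
    have : prt κ 0 i = false := rfl
    rw [this]
    simp [sg]
  | succ j ih => rw [prt_succ, AL_sg_xor, ih, Finset.prod_range_succ]

theorem OC_sg_inj {a b : Bool} (h : sg a = sg b) : a = b := by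
  revert h
  cases a <;> cases b <;> simp [sg] <;> norm_num

theorem OC_prt {κ : ℕ} (p : (Bool × Bool × Bool) × (Fin κ → Bool) × U κ) :
    prt κ κ (AL_mkf p) = bent p.2.2 := by
  apply OC_sg_inj
  rw [OC_sg_prt]
  unfold bent
  rw [AL_sg_bx, Finset.prod_range]
  refine Finset.prod_congr rfl fun k _ => ?_
  have hk := k.isLt
  rw [qg_rd (AL_mkf p) (3 + κ + 2 * k.val) (by omega),
    qg_rd (AL_mkf p) (3 + κ + 2 * k.val + 1) (by omega)]
  show sg (AL_mk p (3 + κ + 2 * k.val) && AL_mk p (3 + κ + 2 * k.val + 1)) = _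
  rw [AL_mk_u1, AL_mk_u2]

/-! ### the algebra -/

theorem OC_key {κ : ℕ} (v v' : U κ) :
    sg (bent v) * sg (bent v') * (∑ u : U κ, sg (bent u) * (Hz u v : ℝ) * (Hz u v' : ℝ)) =
      2 ^ κ * (Hz v (sw v') : ℝ) := by
  unfold bent Hz
  simp_rw [AL_sg_bx, Int.cast_prod, ← Finset.prod_mul_distrib]
  have h := Finset.prod_univ_sum (fun _ : Fin κ => (univ : Finset (Bool × Bool)))
    (fun k p => sg (p.1 && p.2) *
      ((Pool.Agent.H516R2.EQP.sz (p.1 && (v k).1) * Pool.Agent.H516R2.EQP.sz (p.2 && (v k).2) : ℤ) : ℝ) *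
      ((Pool.Agent.H516R2.EQP.sz (p.1 && (v' k).1) * Pool.Agent.H516R2.EQP.sz (p.2 && (v' k).2) : ℤ) : ℝ))
  rw [Fintype.piFinset_univ] at h
  rw [← h, show (2 : ℝ) ^ κ = ∏ _k : Fin κ, (2 : ℝ) by simp, ← Finset.prod_mul_distrib,
    ← Finset.prod_mul_distrib]
  refine Finset.prod_congr rfl (fun k _ => ?_)
  rw [Fintype.sum_prod_type, Fintype.sum_bool, Fintype.sum_bool, Fintype.sum_bool]
  unfold sw
  generalize v k = w
  generalize v' k = w'
  obtain ⟨w1, w2⟩ := w
  obtain ⟨w1', w2'⟩ := w'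
  cases w1 <;> cases w2 <;> cases w1' <;> cases w2' <;>
    norm_num [Pool.Agent.H516R2.EQP.sz, sg]

/-- the algebra -/
theorem OC_alg {κ : ℕ} (Y : Bool → U κ → ℝ) (hY : ∀ c v, Y c v * Y c v = 1)
    (g : Bool → U κ → ℝ) (hg : ∀ c u, g c u = ∑ v, Hd u v *
      (sg (bent v) * (Y c v * (sg c / (Real.sqrt 2 * 2 ^ κ))))) :
    (∑ c : Bool, ∑ u : U κ, if (c ^^ bent u) = true then
      ((g false u + sg c * g true u) / Real.sqrt 2) ^ 2 else 0) =
      (1 + (∑ u : U κ, ∑ v : U κ, Y false u * (Hz u (sw v) : ℝ) * Y true v) / 8 ^ κ) / 2 := by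
  have hs2 : Real.sqrt 2 ^ 2 = 2 := Real.sq_sqrt (by norm_num)
  have hs : Real.sqrt 2 ≠ 0 := by positivity
  have h2 : (2 : ℝ) ^ κ ≠ 0 := by positivity
  have h24 : ((2 : ℝ) ^ κ) ^ 2 = 4 ^ κ := by
    rw [← pow_mul, mul_comm, pow_mul]
    norm_num
  have h28 : ((2 : ℝ) ^ κ) ^ 3 = 8 ^ κ := by
    rw [← pow_mul, mul_comm, pow_mul]
    norm_num
  -- the two possible values of the control qubit
  have e1 : (∑ c : Bool, ∑ u : U κ, if (c ^^ bent u) = true then
      ((g false u + sg c * g true u) / Real.sqrt 2) ^ 2 else 0) =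
      ∑ u : U κ, (g false u ^ 2 + g true u ^ 2 - 2 * (sg (bent u) * g false u * g true u)) / 2 := by
    rw [Fintype.sum_bool, ← Finset.sum_add_distrib]
    refine Finset.sum_congr rfl fun u _ => ?_
    cases h : bent u
    · simp only [Bool.xor_false, if_true, Bool.false_eq_true, if_false, add_zero, div_pow, hs2, sg]
      ring
    · simp only [Bool.xor_true, Bool.not_true, Bool.not_false, if_true, Bool.false_eq_true,
        if_false, zero_add, div_pow, hs2, sg]
      ring
  rw [e1]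
  -- the norms
  have hn : ∀ c, ∑ u : U κ, g c u ^ 2 = 1 / 2 := by
    intro c
    have hb := (B κ).2.2.2.1 (fun v => sg (bent v) * (Y c v * (sg c / (Real.sqrt 2 * 2 ^ κ))))
    rw [Finset.sum_congr rfl fun u _ => by rw [hg c u], hb]
    have : ∀ v : U κ, (sg (bent v) * (Y c v * (sg c / (Real.sqrt 2 * 2 ^ κ)))) ^ 2 =
        1 / (2 * 4 ^ κ) := by
      intro v
      have a1 : sg (bent v) ^ 2 = 1 := by rw [sq]; exact AL_sg_sq _
      have a2 : Y c v ^ 2 = 1 := by rw [sq]; exact hY c v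
      have a3 : sg c ^ 2 = 1 := by rw [sq]; exact AL_sg_sq _
      rw [mul_pow, mul_pow, div_pow, mul_pow, a1, a2, a3, hs2, h24]
      ring
    rw [Finset.sum_congr rfl fun v _ => this v, Finset.sum_const, Finset.card_univ, nsmul_eq_mul,
      AL_cardU]
    have h4 : (4 : ℝ) ^ κ ≠ 0 := by positivity
    field_simp
  -- the cross term
  have hcr : ∑ u : U κ, sg (bent u) * g false u * g true u =
      -((∑ u : U κ, ∑ v : U κ, Y false u * (Hz u (sw v) : ℝ) * Y true v) / 8 ^ κ) / 2 := by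
    have e2 : ∀ u : U κ, sg (bent u) * g false u * g true u = ∑ v : U κ, ∑ v' : U κ,
        -((Y false v * Y true v') * (sg (bent v) * sg (bent v') * (sg (bent u) * (Hz u v : ℝ) *
          (Hz u v' : ℝ))) / (2 * ((2 : ℝ) ^ κ) ^ 4)) := by
      intro u
      rw [hg false u, hg true u, mul_assoc, Finset.sum_mul_sum, Finset.mul_sum]
      refine Finset.sum_congr rfl fun v _ => ?_
      rw [Finset.mul_sum]
      refine Finset.sum_congr rfl fun v' _ => ?_
      have a1 : sg false = 1 := rfl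
      have a2 : sg true = -1 := rfl
      rw [a1, a2]
      unfold Hd
      have a3 : Real.sqrt 2 * Real.sqrt 2 = 2 := QF_sqrt
      field_simp
      rw [hs2]
      ring
    rw [Finset.sum_congr rfl fun u _ => e2 u, Finset.sum_comm]
    have e3 : ∀ v : U κ, ∑ u : U κ, ∑ v' : U κ,
        -((Y false v * Y true v') * (sg (bent v) * sg (bent v') * (sg (bent u) * (Hz u v : ℝ) *
          (Hz u v' : ℝ))) / (2 * ((2 : ℝ) ^ κ) ^ 4)) =
        ∑ v' : U κ, -((Y false v * (Hz v (sw v') : ℝ) * Y true v') / 8 ^ κ / 2) := by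
      intro v
      rw [Finset.sum_comm]
      refine Finset.sum_congr rfl fun v' _ => ?_
      rw [Finset.sum_neg_distrib, ← Finset.sum_div, ← Finset.mul_sum]
      have e4 : ∑ u : U κ, sg (bent v) * sg (bent v') * (sg (bent u) * (Hz u v : ℝ) * (Hz u v' : ℝ)) =
          2 ^ κ * (Hz v (sw v') : ℝ) := by
        rw [← Finset.mul_sum, OC_key]
      rw [e4, ← h28]
      field_simp
    rw [Finset.sum_congr rfl fun v _ => e3 v]
    simp_rw [Finset.sum_neg_distrib, ← Finset.sum_div]
    ring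
  rw [← Finset.sum_div, Finset.sum_sub_distrib, Finset.sum_add_distrib, hn, hn, ← Finset.mul_sum, hcr]
  ring

/-! ### assembly -/

theorem OC_supp {κ : ℕ} (i : Fin (3 + 3 * κ) → Bool) (hi : i ⟨0, by omega⟩ = false) :
    HH (pm1 κ) (qgD (ix (one κ))) i = 0 := by
  obtain ⟨p, rfl⟩ := (AL_mkf_bij (κ := κ)).2 i
  obtain ⟨c, l, u⟩ := p
  rw [OC_phi0, if_neg]
  rintro ⟨h, -⟩
  have h1 : AL_mkf (κ := κ) (c, l, u) ⟨0, by omega⟩ = c.1 := rfl
  rw [h1, h] at hi
  exact absurd hi (by decide)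

theorem OC_main : St_OC := by
  intro κ P A hP
  set w : List Bool := P.map (fun j => decide (j = 3)) with hw
  set φ0 : (Fin (3 + 3 * κ) → Bool) → ℝ := HH (pm1 κ) (qgD (ix (one κ))) with hφ0
  set Φ : Bool → (Fin (3 + 3 * κ) → Bool) → ℝ := fun c i => sg (prt κ κ i) *
    (sg (A (w ++ c :: List.ofFn i)) * ((0 + sg c * φ0 i) / Real.sqrt 2)) with hΦ
  set G : Bool → (Fin (3 + 3 * κ) → Bool) → ℝ := fun c => HH (pm1 κ) (Φ c) with hG
  have hst : circAct A (circO P κ).2 (initSt (6 + 3 * κ)) =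
      lf (fun c i => (c ^^ prt κ κ i))
        (fun c i => (G false i + sg c * G true i) / Real.sqrt 2) := by
    show circAct A (nt 1 :: nt 2 :: had 2 :: nt 3 :: (midQ κ).map nt ++ (midQ κ).map had ++
      had 1 :: Sum.inr (true, P ++ 1 :: idxQ κ, 2) :: czG κ 2 ++ (midQ κ).map had ++ had 1 ::
      Sum.inr (false, [1], 0) :: czG κ 0) (initSt (6 + 3 * κ)) = _
    rw [ql_append, ql_append, ql_append, ql_append, OC_prep, (QL κ A false _).2]
    have e1 : lift (κ := κ) false (HH (fun k => decide (3 + κ ≤ k.val)) (qgD (ix (one κ)))) =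
        lf oz (fun c i => if c then φ0 i else 0) := OC_lift _
    rw [e1]
    have e2 : circAct A (had 1 :: Sum.inr (true, P ++ 1 :: idxQ κ, 2) :: czG κ 2)
        (lf oz (fun c i => if c then φ0 i else 0)) = lf oz Φ := by
      show circAct A (czG κ 2) (gateAct A (Sum.inr (true, P ++ 1 :: idxQ κ, 2))
        (gateAct A (had 1) (lf oz (fun c i => if c then φ0 i else 0)))) = _
      rw [OC_had1]
      have e3 : (fun (c : Bool) (i : Fin (3 + 3 * κ) → Bool) =>
          ((if false = true then φ0 i else 0) + sg c * (if true = true then φ0 i else 0)) /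
            Real.sqrt 2) = fun c i => (0 + sg c * φ0 i) / Real.sqrt 2 := by
        funext c i
        simp
      rw [e3, OC_orc A P hP _ (by
        intro c i hi
        have : φ0 i = 0 := OC_supp i hi
        rw [this]
        simp)]
      exact OC_cz2 A _ κ
    rw [e2, OC_mid]
    show circAct A (czG κ 0) (gateAct A (Sum.inr (false, [1], 0)) (gateAct A (had 1)
      (lf oz G))) = _
    rw [OC_had1, OC_cnot]
    exact OC_cz0 A _ _ κ
  unfold circO at hst ⊢
  rw [QF_acc A _ _ (6 + 3 * κ) (List.length_replicate ..)]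
  rw [hst, OC_acc]
  -- sums over the parts of the index
  have e1 : ∀ F : (Fin (3 + 3 * κ) → Bool) → ℝ, ∑ i, F i = ∑ p, F (AL_mkf (κ := κ) p) := by
    intro F
    exact (Equiv.sum_comp (Equiv.ofBijective _ AL_mkf_bij) F).symm
  have hG' : ∀ (b : Bool) (c : Bool × Bool × Bool) (l : Fin κ → Bool) (u : U κ),
      G b (AL_mkf (c, l, u)) = if c = cc ∧ l = (fun _ => false) then ∑ v : U κ, Hd u v *
        (sg (bent v) * ((sg (A (w ++ b :: List.ofFn (ix v))) * sg (par1 v)) *
          (sg b / (Real.sqrt 2 * 2 ^ κ)))) else 0 := by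
    intro b c l u
    rw [hG]
    simp only
    rw [OC_HHU]
    by_cases h : c = cc ∧ l = (fun _ => false)
    · rw [if_pos h]
      refine Finset.sum_congr rfl fun v _ => ?_
      rw [hΦ]
      simp only
      rw [OC_prt, hφ0, OC_phi0, if_pos h, h.1, h.2]
      have : AL_mkf (κ := κ) (cc, (fun _ => false), v) = ix v := rfl
      rw [this]
      have hs : Real.sqrt 2 ≠ 0 := by positivity
      field_simp
      ring
    · rw [if_neg h]
      refine Finset.sum_eq_zero fun v _ => ?_
      rw [hΦ]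
      simp only
      rw [hφ0, OC_phi0, if_neg h]
      simp
  have e2 : ∀ b : Bool, (∑ i, if (b ^^ prt κ κ i) = true then
      ((G false i + sg b * G true i) / Real.sqrt 2) ^ 2 else 0) =
      ∑ u : U κ, if (b ^^ bent u) = true then
      ((G false (ix u) + sg b * G true (ix u)) / Real.sqrt 2) ^ 2 else 0 := by
    intro b
    rw [e1, Fintype.sum_prod_type, Finset.sum_eq_single cc]
    · rw [Fintype.sum_prod_type, Finset.sum_eq_single (fun _ => false)]
      · refine Finset.sum_congr rfl (fun v _ => ?_)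
        rw [OC_prt]
        rfl
      · intro l' _ hl'
        apply Finset.sum_eq_zero
        intro v _
        have g0 : ∀ d, G d (AL_mkf (cc, l', v)) = 0 := fun d => by
          rw [hG', if_neg (fun h => hl' h.2)]
        rw [g0, g0]
        simp
      · intro h; exact absurd (Finset.mem_univ _) h
    · intro c' _ hc'
      apply Finset.sum_eq_zero
      rintro ⟨l', v⟩ _
      have g0 : ∀ d, G d (AL_mkf (c', l', v)) = 0 := fun d => by
        rw [hG', if_neg (fun h => hc' h.1)]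
      rw [g0, g0]
      simp
    · intro h; exact absurd (Finset.mem_univ _) h
  rw [Finset.sum_congr rfl fun b _ => e2 b]
  have h := OC_alg (κ := κ) (fun b v => sg (A (w ++ b :: List.ofFn (ix v))) * sg (par1 v))
    (fun c v => by
      have a1 := AL_sg_sq (A (w ++ c :: List.ofFn (ix v)))
      have a2 := AL_sg_sq (par1 v)
      calc _ = (sg (A (w ++ c :: List.ofFn (ix v))) * sg (A (w ++ c :: List.ofFn (ix v)))) *
          (sg (par1 v) * sg (par1 v)) := by ring
        _ = 1 := by rw [a1, a2, one_mul])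
    (fun b u => G b (ix u)) (fun b u => by
      have := hG' b cc (fun _ => false) u
      rw [if_pos ⟨rfl, rfl⟩] at this
      exact this)
  refine h.trans ?_
  unfold valO
  rfl

end Pool.Agent.H440Q
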