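import Pool.Agent.H440Q.OC2

/-! # The circuits with one question, with prefix and suffix -/

set_option autoImplicit false

namespace Pool.Agent.H440Q

open Pool.Agent.NPC Pool.Agent.H620R2.Gauge Finset H568R2 Pool.Agent.H676 Pool.Agent.H516R2.EQP

/-- the question -/
theorem OCS_orc {κ : ℕ} (A : Oracle) (P S : List ℕ) (hP : ∀ j ∈ P, j = 3 ∨ j = 6 + 3 * κ)
    (hS : ∀ j ∈ S, j = 3 ∨ j = 6 + 3 * κ)
    (φ : Bool → (Fin (3 + 3 * κ) → Bool) → ℝ) (hφ : ∀ c i, i ⟨0, by omega⟩ = false → φ c i = 0) :
    gateAct A (Sum.inr (true, P ++ 1 :: idxQ κ ++ S, 2)) (lf oz φ) =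
      lf oz (fun c i => sg (A (P.map (fun j => decide (j = 3)) ++ c :: List.ofFn i ++
        S.map (fun j => decide (j = 3)))) * φ c i) := by
  have h2 : 2 < 6 + 3 * κ := by omega
  refine OC_flip2 φ (fun s => A ((P ++ 1 :: idxQ κ ++ S).map (rd s)))
    (fun c i => A (P.map (fun j => decide (j = 3)) ++ c :: List.ofFn i ++
        S.map (fun j => decide (j = 3)))) ?_
  intro s hs
  have h3 : rd s 3 = true := by
    by_contra hcon
    apply hs
    apply hφ
    show rd s (0 + 3) = false
    simpa using hcon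
  have hrd : ∀ j, (j = 3 ∨ j = 6 + 3 * κ) →
      rd (Function.update s ⟨2, h2⟩ false) j = decide (j = 3) := by
    intro j hj
    rcases hj with rfl | rfl
    · rw [ql_rd_ne s 2 h2 _ 3 (by omega), h3]
      rfl
    · have h6 : ¬ (6 + 3 * κ = 3) := by omega
      rw [decide_eq_false h6]
      unfold rd
      rw [dif_neg (by omega)]
  rw [List.map_append, List.map_append, List.map_cons, qg_map, qg_I2 s 2 h2 (by omega),
    ql_rd_ne s 2 h2 _ 1 (by omega), List.map_congr_left fun j hj => hrd j (hP j hj),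
    List.map_congr_left fun j hj => hrd j (hS j hj)]

/-- the circuits with one question: `P` and `S` are the lists of the qubits containing the prefix and
the suffix -/
def circS (P S : List ℕ) (κ : ℕ) : List Unit × List Gate :=
  (List.replicate (6 + 3 * κ) (),
    nt 1 :: nt 2 :: had 2 :: nt 3 :: (midQ κ).map nt ++ (midQ κ).map had ++ had 1 ::
      Sum.inr (true, P ++ 1 :: idxQ κ ++ S, 2) :: czG κ 2 ++ (midQ κ).map had ++ had 1 ::
      Sum.inr (false, [1], 0) :: czG κ 0)

theorem OCS_main (κ : ℕ) (P S : List ℕ) (A : Oracle) (hP : ∀ j ∈ P, j = 3 ∨ j = 6 + 3 * κ)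
    (hS : ∀ j ∈ S, j = 3 ∨ j = 6 + 3 * κ) : accProb A (circS P S κ) =
    (1 + valO (fun z => A (P.map (fun j => decide (j = 3)) ++ z ++
      S.map (fun j => decide (j = 3)))) κ) / 2 := by
  set w : List Bool := P.map (fun j => decide (j = 3)) with hw
  set w' : List Bool := S.map (fun j => decide (j = 3)) with hw'
  set φ0 : (Fin (3 + 3 * κ) → Bool) → ℝ := HH (pm1 κ) (qgD (ix (one κ))) with hφ0
  set Φ : Bool → (Fin (3 + 3 * κ) → Bool) → ℝ := fun c i => sg (prt κ κ i) *
    (sg (A (w ++ c :: List.ofFn i ++ w')) * ((0 + sg c * φ0 i) / Real.sqrt 2)) with hΦ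
  set G : Bool → (Fin (3 + 3 * κ) → Bool) → ℝ := fun c => HH (pm1 κ) (Φ c) with hG
  have hst : circAct A (circS P S κ).2 (initSt (6 + 3 * κ)) =
      lf (fun c i => (c ^^ prt κ κ i))
        (fun c i => (G false i + sg c * G true i) / Real.sqrt 2) := by
    show circAct A (nt 1 :: nt 2 :: had 2 :: nt 3 :: (midQ κ).map nt ++ (midQ κ).map had ++
      had 1 :: Sum.inr (true, P ++ 1 :: idxQ κ ++ S, 2) :: czG κ 2 ++ (midQ κ).map had ++ had 1 ::
      Sum.inr (false, [1], 0) :: czG κ 0) (initSt (6 + 3 * κ)) = _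
    rw [ql_append, ql_append, ql_append, ql_append, OC_prep, (QL κ A false _).2]
    have e1 : lift (κ := κ) false (HH (fun k => decide (3 + κ ≤ k.val)) (qgD (ix (one κ)))) =
        lf oz (fun c i => if c then φ0 i else 0) := OC_lift _
    rw [e1]
    have e2 : circAct A (had 1 :: Sum.inr (true, P ++ 1 :: idxQ κ ++ S, 2) :: czG κ 2)
        (lf oz (fun c i => if c then φ0 i else 0)) = lf oz Φ := by
      show circAct A (czG κ 2) (gateAct A (Sum.inr (true, P ++ 1 :: idxQ κ ++ S, 2))
        (gateAct A (had 1) (lf oz (fun c i => if c then φ0 i else 0)))) = _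
      rw [OC_had1]
      have e3 : (fun (c : Bool) (i : Fin (3 + 3 * κ) → Bool) =>
          ((if false = true then φ0 i else 0) + sg c * (if true = true then φ0 i else 0)) /
            Real.sqrt 2) = fun c i => (0 + sg c * φ0 i) / Real.sqrt 2 := by
        funext c i
        simp
      rw [e3, OCS_orc A P S hP hS _ (by
        intro c i hi
        have : φ0 i = 0 := OC_supp i hi
        rw [this]
        simp)]
      exact OC_cz2 A _ κ
    rw [e2, OC_mid]
    show circAct A (czG κ 0) (gateAct A (Sum.inr (false, [1], 0)) (gateAct A (had 1)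
      (lf oz G))) = _
    rw [OC_had1, OC_cnot]
    exact OC_cz0 A _ _ κ
  unfold circS at hst ⊢
  rw [QF_acc A _ _ (6 + 3 * κ) (List.length_replicate ..)]
  rw [hst, OC_acc]
  -- sums over the parts of the index
  have e1 : ∀ F : (Fin (3 + 3 * κ) → Bool) → ℝ, ∑ i, F i = ∑ p, F (AL_mkf (κ := κ) p) := by
    intro F
    exact (Equiv.sum_comp (Equiv.ofBijective _ AL_mkf_bij) F).symm
  have hG' : ∀ (b : Bool) (c : Bool × Bool × Bool) (l : Fin κ → Bool) (u : U κ),
      G b (AL_mkf (c, l, u)) = if c = cc ∧ l = (fun _ => false) then ∑ v : U κ, Hd u v *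
        (sg (bent v) * ((sg (A (w ++ b :: List.ofFn (ix v) ++ w')) * sg (par1 v)) *
          (sg b / (Real.sqrt 2 * 2 ^ κ)))) else 0 := by
    intro b c l u
    rw [hG]
    simp only
    rw [OC_HHU]
    by_cases h : c = cc ∧ l = (fun _ => false)
    · rw [if_pos h]
      refine Finset.sum_congr rfl fun v _ => ?_
      rw [hΦ]
      simp only
      rw [OC_prt, hφ0, OC_phi0, if_pos h, h.1, h.2]
      have : AL_mkf (κ := κ) (cc, (fun _ => false), v) = ix v := rfl
      rw [this]
      have hs : Real.sqrt 2 ≠ 0 := by positivity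
      field_simp
      ring
    · rw [if_neg h]
      refine Finset.sum_eq_zero fun v _ => ?_
      rw [hΦ]
      simp only
      rw [hφ0, OC_phi0, if_neg h]
      simp
  have e2 : ∀ b : Bool, (∑ i, if (b ^^ prt κ κ i) = true then
      ((G false i + sg b * G true i) / Real.sqrt 2) ^ 2 else 0) =
      ∑ u : U κ, if (b ^^ bent u) = true then
      ((G false (ix u) + sg b * G true (ix u)) / Real.sqrt 2) ^ 2 else 0 := by
    intro b
    rw [e1, Fintype.sum_prod_type, Finset.sum_eq_single cc]
    · rw [Fintype.sum_prod_type, Finset.sum_eq_single (fun _ => false)]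
      · refine Finset.sum_congr rfl (fun v _ => ?_)
        rw [OC_prt]
        rfl
      · intro l' _ hl'
        apply Finset.sum_eq_zero
        intro v _
        have g0 : ∀ d, G d (AL_mkf (cc, l', v)) = 0 := fun d => by
          rw [hG', if_neg (fun h => hl' h.2)]
        rw [g0, g0]
        simp
      · intro h; exact absurd (Finset.mem_univ _) h
    · intro c' _ hc'
      apply Finset.sum_eq_zero
      rintro ⟨l', v⟩ _
      have g0 : ∀ d, G d (AL_mkf (c', l', v)) = 0 := fun d => by
        rw [hG', if_neg (fun h => hc' h.1)]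
      rw [g0, g0]
      simp
    · intro h; exact absurd (Finset.mem_univ _) h
  rw [Finset.sum_congr rfl fun b _ => e2 b]
  have h := OC_alg (κ := κ) (fun b v => sg (A (w ++ b :: List.ofFn (ix v) ++ w')) * sg (par1 v))
    (fun c v => by
      have a1 := AL_sg_sq (A (w ++ c :: List.ofFn (ix v) ++ w'))
      have a2 := AL_sg_sq (par1 v)
      calc _ = (sg (A (w ++ c :: List.ofFn (ix v) ++ w')) * sg (A (w ++ c :: List.ofFn (ix v) ++ w'))) *
          (sg (par1 v) * sg (par1 v)) := by ring
        _ = 1 := by rw [a1, a2, one_mul])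
    (fun b u => G b (ix u)) (fun b u => by
      have := hG' b cc (fun _ => false) u
      rw [if_pos ⟨rfl, rfl⟩] at this
      exact this)
  refine h.trans ?_
  unfold valO
  rfl

end Pool.Agent.H440Q
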