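import Pool.Agent.H440Q.Base
import Pool.Agent.H516R2.EQP5.Props

/-! # One quantum question, many oracles: statements -/

set_option autoImplicit false

namespace Pool.Agent.H440Q

open Pool.Agent.NPC Pool.Agent.H620R2.Gauge Finset H568R2 Pool.Agent.H676 Pool.Agent.H516R2.EQP
  Pool.Agent.H516R2.EQP2 Pool.Agent.H516R2.EQP3 Pool.Agent.H516R2.EQP4 Pool.Agent.H516R2.EQP5

/-- put the instance `x` into the block `m` -/
def pmN (a b m : ℕ) (x : Cube (m ^ a) → Bool) (B : Oracle) : Oracle := pm a b m (sgm x) B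

/-- the decoded number computed by the circuits for the block `m` -/
noncomputable def alN (a b m : ℕ) (A : Oracle) : ℝ := dec (valO (tlI b m A) (m ^ a))

/-- every good function errs, explicit conditions on the parameters -/
def St_H2n : Prop := ∀ (κ t J : ℕ), 20 ≤ κ → 1 ≤ t → t ≤ 4 ^ κ →
  1200 * (((24 * (t : ℝ)) ^ J) ^ 2 * ((t : ℝ) ^ 2 + 1)) / 2 ^ κ + 210000 / 16 ^ κ ≤ 1 / 100 →
  68 * 4 ^ κ * (1 - (1 / (24 * (t : ℝ))) ^ J) ^ (2 ^ κ / 200) ≤ 1 / 100 →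
  ∀ h : (Cube κ → Bool) → Bool, Goods κ t J h →
  (∃ a, YesO a ∧ h a = false) ∨ ∃ a, NoO a ∧ h a = true

/-- facts about the blocks -/
def St_PIn : Prop := ∀ a b : ℕ, 1 ≤ b →
  (∀ (m m' : ℕ) (z : List Bool), InI a b m z → InI a b m' z → m = m') ∧
  (∀ (m : ℕ) (z : List Bool) (x : Cube (m ^ a) → Bool) (B : Oracle), ¬ InI a b m z →
    pmN a b m x B z = B z) ∧
  (∀ (m : ℕ) (A A' : Oracle), (∀ z, InI a b m z → A z = A' z) → alN a b m A = alN a b m A') ∧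
  (∀ (m : ℕ) (x : Cube (m ^ a) → Bool) (B : Oracle),
    (YesO x → alN a b m (pmN a b m x B) = 1 / 2) ∧ (NoO x → alN a b m (pmN a b m x B) = 0)) ∧
  ∀ R : Oracle, ∃ B : Oracle, (∀ z, z ∉ TI a b → B z = R z) ∧ ∀ m, alN a b m B = 0

/-- quantified oracle algorithms are good functions of the content of a block -/
def St_GIn : Prop := ∀ (a b : ℕ) (M : Alg) (k : ℕ) (p q : Polynomial ℕ), ∃ P : Polynomial ℕ,
  ∀ m : ℕ, m ^ a ≤ 2 ^ m ^ b → ∀ (y : List Bool) (l : ℕ), y.length ≤ q.eval (2 ^ m ^ b) →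
    l ≤ p.eval (2 ^ m ^ b) → 1 ≤ P.eval (2 ^ m ^ b) ∧ ∀ (B : Oracle) (b' c : Bool),
      Goods (m ^ a) (P.eval (2 ^ m ^ b)) k (fun x => QO M l k b' y (pmN a b m x B) ^^ c)

/-- the circuits -/
def St_QIn : Prop := ∀ a b : ℕ, 1 ≤ b → ∃ C : List Bool → List Unit × List Gate,
  PolyTime (fun x => bits (C x)) ∧ ∀ x : List Bool, queries (C x) ≤ 1 ∧
    (∀ m : ℕ, x.length = 2 ^ m ^ b → ∀ A : Oracle,
      (alN a b m A = 1 / 2 → 2 / 3 ≤ accProb A (C x)) ∧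
      (alN a b m A = 0 → accProb A (C x) ≤ 1 / 3)) ∧
    ((∀ m : ℕ, x.length ≠ 2 ^ m ^ b) → ∀ A : Oracle, accProb A (C x) = 0)

/-- the language -/
def LIn (a b : ℕ) (B : Oracle) : Set (List Bool) :=
  {x | ∃ m : ℕ, x.length = 2 ^ m ^ b ∧ alN a b m B = 1 / 2}

/-- one step of the construction -/
def St_ISn : Prop := ∀ (a b : ℕ), 1 ≤ b → b < a → ∀ (M : Alg) (p : Polynomial ℕ) (k : ℕ)
  (B : Oracle) (N : ℕ), ∃ (m : ℕ) (x : Cube (m ^ a) → Bool) (y : List Bool), (YesO x ∨ NoO x) ∧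
    (∀ z : List Bool, z.length ≤ N → ¬ InI a b m z) ∧
    ¬ (QO M (p.eval y.length) k true y (pmN a b m x B) = true ↔ y ∈ LIn a b (pmN a b m x B))

/-- every oracle can be changed at the strings of the blocks -/
def St_IGn : Prop := ∀ (a b : ℕ), 1 ≤ b → b < a → ∀ R : Oracle, ∃ A : Oracle,
  (∀ y, y ∉ TI a b → A y = R y) ∧ ∃ L, IsBQPq 1 A L ∧ ¬ IsPH A L

/-- the theorem -/
def St_IHn : Prop := ∀ (f : ℕ → ℝ) (ε : ℝ), 0 < ε →
  (∀ᶠ N : ℕ in Filter.atTop, 2 ^ (Real.logb 2 (Real.logb 2 N)) ^ (1 + ε) ≤ f N) →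
  ¬ Null f {A : Oracle | ∃ L, IsBQPq 1 A L ∧ ¬ IsPH A L}

end Pool.Agent.H440Q
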