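import Pool.Agent.H440Q.PIn
import Pool.Agent.H440Q.OC2
import Pool.Agent.H516R2.EQP5.QI

/-! # The circuits with one question are computable in polynomial time -/

set_option autoImplicit false

namespace Pool.Agent.H440Q

open Pool.Agent.NPC Pool.Agent.H620R2.Gauge Finset H568R2 Pool.Agent.H676 Pool.Agent.H516R2.EQP
  Pool.Agent.H516R2.EQP2 Pool.Agent.H516R2.EQP3 Pool.Agent.H516R2.EQP4 Pool.Agent.H516R2.EQP5

/-! ### number of questions -/

theorem OQ_cnt_cz (κ t : ℕ) : QC_cnt (czG κ t) = 0 := by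
  unfold QC_cnt
  rw [List.countP_eq_zero]
  intro g hg
  unfold czG at hg
  obtain ⟨i, _, rfl⟩ := List.mem_map.1 hg
  simp

theorem OQ_queries (P : List ℕ) (κ : ℕ) : queries (circO P κ) = 1 := by
  show QC_cnt (Sum.inr (false, [], 1) :: Sum.inr (false, [], 2) :: Sum.inl 2 ::
    Sum.inr (false, [], 3) :: (midQ κ).map nt ++ (midQ κ).map had ++
    Sum.inl 1 :: Sum.inr (true, P ++ 1 :: idxQ κ, 2) :: czG κ 2 ++ (midQ κ).map had ++
    Sum.inl 1 :: Sum.inr (false, [1], 0) :: czG κ 0) = 1
  rw [QC_cnt_append, QC_cnt_append, QC_cnt_append, QC_cnt_append, QC_cnt_false, QC_cnt_false,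
    QC_cnt_inl, QC_cnt_false, QC_cnt_nt, QC_cnt_had, QC_cnt_inl, QC_cnt_true, OQ_cnt_cz,
    QC_cnt_inl, QC_cnt_false, OQ_cnt_cz]

/-! ### polynomial time -/

theorem OQ_czP (t : ℕ) {κ : List Bool → ℕ} (hκ : UPoly κ) :
    NPC.Poly (fun x : List Bool => czG (κ x) t) := by
  unfold czG
  have hk : NPC.Poly κ := hκ.toPoly
  have ha : NPC.Poly (fun z : List Bool × ℕ => 6 + κ z.1 + 2 * z.2) :=
    NPC.Poly.add (NPC.Poly.add (NPC.Poly.const 6) (hk.comp (NPC.Poly.fst NPC.Poly.id)))
      (NPC.Poly.mul (NPC.Poly.const 2) (NPC.Poly.snd NPC.Poly.id))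
  exact NPC.Poly.map (F := fun (x : List Bool) k =>
      (Sum.inr (false, [6 + κ x + 2 * k, 6 + κ x + 2 * k + 1], t) : Gate)) hκ.range
    (NPC.Poly.inr (NPC.Poly.pair (NPC.Poly.const false) (NPC.Poly.pair
      (NPC.Poly.cons ha (NPC.Poly.cons (NPC.Poly.succ ha) (NPC.Poly.const ([] : List ℕ))))
      (NPC.Poly.const t))))

theorem OQ_circP {P : List Bool → List ℕ} (hP : NPC.Poly P) {κ : List Bool → ℕ} (hκ : UPoly κ) :
    NPC.Poly (fun x : List Bool => circO (P x) (κ x)) := by
  have hm : NPC.Poly (fun x : List Bool => midQ (κ x)) := QI_lift QC_mid hκ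
  have hi : NPC.Poly (fun x : List Bool => idxQ (κ x)) := QI_lift QC_idx hκ
  have ho : NPC.Poly (fun x : List Bool => (Sum.inr (true, P x ++ 1 :: idxQ (κ x), 2) : Gate)) :=
    QC_gate true (NPC.Poly.append hP (NPC.Poly.cons (NPC.Poly.const 1) hi)) 2
  have h : NPC.Poly (fun x : List Bool => ((List.replicate (6 + 3 * κ x) () : List Unit),
      nt 1 :: nt 2 :: had 2 :: nt 3 :: (midQ (κ x)).map nt ++ (midQ (κ x)).map had ++ had 1 ::
      Sum.inr (true, P x ++ 1 :: idxQ (κ x), 2) :: czG (κ x) 2 ++ (midQ (κ x)).map had ++ had 1 ::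
      Sum.inr (false, [1], 0) :: czG (κ x) 0)) := by
    refine NPC.Poly.pair (QI_nU hκ) ?_
    exact NPC.Poly.append (NPC.Poly.append (NPC.Poly.append (NPC.Poly.append
      (NPC.Poly.cons (NPC.Poly.const _) (NPC.Poly.cons (NPC.Poly.const _) (NPC.Poly.cons
        (NPC.Poly.const _) (NPC.Poly.cons (NPC.Poly.const _) (QC_nt hm)))))
      (QC_had hm)) (NPC.Poly.cons (NPC.Poly.const _) (NPC.Poly.cons ho (OQ_czP 2 hκ))))
      (QC_had hm)) (NPC.Poly.cons (NPC.Poly.const _) (NPC.Poly.cons (NPC.Poly.const _)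
        (OQ_czP 0 hκ)))
  exact h

/-- the qubits which contain the prefix -/
def OQ_pre (N κ : ℕ) : List ℕ := List.replicate N (6 + 3 * κ) ++ [3]

theorem OQ_preP {κ : List Bool → ℕ} (hκ : UPoly κ) :
    NPC.Poly (fun x : List Bool => OQ_pre x.length (κ x)) :=
  (NPC.Poly.append (NPC.Poly.map (F := fun (x : List Bool) (_ : Bool) => 6 + 3 * κ x)
    NPC.Poly.id ((QI_nU hκ).toPoly.comp (NPC.Poly.fst NPC.Poly.id)))
      (NPC.Poly.const [3])).congr fun x => by
    unfold OQ_pre
    rw [List.map_const']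

/-- the circuit -/
def OQ_C (a b : ℕ) (x : List Bool) : List Unit × List Gate :=
  bif decide (x.length = 2 ^ (QI_m b x) ^ b) then
    circO (OQ_pre x.length ((QI_m b x) ^ a)) ((QI_m b x) ^ a)
  else ([()], [])

theorem OQ_CP (a b : ℕ) : NPC.Poly (OQ_C a b) := by
  have h1 : NPC.Poly (fun x : List Bool => decide (x.length = 2 ^ (QI_m b x) ^ b)) :=
    NPC.Poly.decide_eq (NPC.Poly.length NPC.Poly.id) (QI_twoP (QI_powU (QI_mP b) b))
  exact NPC.Poly.cond h1 (OQ_circP (OQ_preP (QI_powU (QI_mP b) a)) (QI_powU (QI_mP b) a))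
    (NPC.Poly.const _)

theorem QIn : St_QIn := by
  intro a b hb
  refine ⟨OQ_C a b, polyTime_bits (OQ_CP a b), fun x => ⟨?_, ?_, ?_⟩⟩
  · unfold OQ_C
    cases decide (x.length = 2 ^ (QI_m b x) ^ b)
    · show queries (([()], []) : List Unit × List Gate) ≤ 1
      unfold queries
      simp
    · exact (OQ_queries _ _).le
  · intro m hx A
    have hm := QI_m_eq b m hb x hx
    have h1 : OQ_C a b x = circO (OQ_pre (2 ^ m ^ b) (m ^ a)) (m ^ a) := by
      unfold OQ_C
      rw [hm, hx]
      simp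
    have h2 : accProb A (OQ_C a b x) = (1 + valO (tlI b m A) (m ^ a)) / 2 := by
      rw [h1, OC_main (m ^ a) _ A (by
        intro j hj
        unfold OQ_pre at hj
        rw [List.mem_append] at hj
        rcases hj with hj | hj
        · exact Or.inr (List.eq_of_mem_replicate hj)
        · exact Or.inl (List.mem_singleton.1 hj))]
      congr 2
      have e : (OQ_pre (2 ^ m ^ b) (m ^ a)).map (fun j => decide (j = 3)) =
          List.replicate (2 ^ m ^ b) false ++ [true] := by
        unfold OQ_pre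
        have h6 : decide (6 + 3 * m ^ a = 3) = false := by
          rw [decide_eq_false_iff_not]
          omega
        rw [List.map_append, List.map_replicate, h6]
        rfl
      rw [e]
      congr 1
      funext z
      unfold tlI
      rw [List.append_assoc]
      rfl
    rw [h2]
    constructor
    · intro h
      have := dec_half h
      linarith
    · intro h
      have := dec_zero h
      linarith
  · intro h A
    have h1 : OQ_C a b x = ([()], []) := by
      unfold OQ_C
      have h2 : decide (x.length = 2 ^ (QI_m b x) ^ b) = false := decide_eq_false (h _)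
      rw [h2]
      rfl
    rw [h1, QI_acc0]

end Pool.Agent.H440Q
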